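import Mathlib
import Pool.Agent.W757.QR.St
import Pool.Agent.H790R3.RB.TSP
import Pool.Agent.H790R3.RB.TPQ

/-! Task RQ-TRAP: near a rational map with an attracting base point at infinity there is a common
trap whose complement is attracted. -/

set_option autoImplicit false

open Topology Filter Metric Set Polynomial MeasureTheory
open scoped OnePoint
open Pool.Agent.H790R3.RB (CV hF cr ND wr rt sp pr hc pol Sink Attd HypTop)

namespace Pool.Agent.W376.RQTRAP

/-- the image of a sink is a sink -/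
theorem sink_iter {f : OnePoint ℂ → OnePoint ℂ} (hf : Continuous f) {n : ℕ} {a : OnePoint ℂ}
    (h : Sink f n a) (j : ℕ) : Sink f n (f^[j] a) := by
  obtain ⟨hn, hfa, U, hU, hV⟩ := h
  have hback : f^[n * j - j] (f^[j] a) = a := by
    rw [← Function.iterate_add_apply, Nat.sub_add_cancel (Nat.le_mul_of_pos_left j hn),
      Function.iterate_mul]
    exact Function.iterate_fixed hfa j
  refine ⟨hn, ?_, f^[n * j - j] ⁻¹' U, ?_, ?_⟩
  · rw [← Function.iterate_add_apply, add_comm, Function.iterate_add_apply, hfa]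
  · apply (hf.iterate _).continuousAt.preimage_mem_nhds
    rw [hback]; exact hU
  · intro V hVa
    have h1 := hV (f^[j] ⁻¹' V) ((hf.iterate j).continuousAt.preimage_mem_nhds hVa)
    rw [eventually_atTop] at h1 ⊢
    obtain ⟨k0, hk0⟩ := h1
    refine ⟨k0 + j, fun k hk w hw => ?_⟩
    obtain ⟨i, rfl⟩ : ∃ i, k = i + j := ⟨k - j, by omega⟩
    have h2 := hk0 i (by omega) _ hw
    rw [mem_preimage, ← Function.iterate_add_apply, ← Function.iterate_add_apply] at h2
    have h3 : j + (n * i + (n * j - j)) = n * (i + j) := by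
      have := Nat.le_mul_of_pos_left j hn
      rw [mul_add]; omega
    rwa [add_assoc, h3] at h2

/-- a point with an attracted image is attracted -/
theorem attd_of_iter {f : OnePoint ℂ → OnePoint ℂ} (hf : Continuous f) {m : ℕ} {z : OnePoint ℂ}
    (h : Attd f (f^[m] z)) : Attd f z := by
  obtain ⟨n, a, hs, ht⟩ := h
  have hn := hs.1
  have hle := Nat.le_mul_of_pos_left m hn
  refine ⟨n, f^[n * m - m] a, sink_iter hf hs _, ?_⟩
  have h1 : Tendsto (fun k : ℕ => f^[n * (k + m)] z) atTop (𝓝 (f^[n * m - m] a)) := by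
    have h2 := ((hf.iterate (n * m - m)).tendsto a).comp ht
    refine h2.congr fun k => ?_
    simp only [Function.comp_apply]
    rw [← Function.iterate_add_apply, ← Function.iterate_add_apply]
    congr 2
    rw [mul_add]; omega
  exact (tendsto_add_atTop_iff_nat m).mp h1

/-- a compact set whose iterated image is in its interior is contained in a compact set whose image
is in its interior -/
theorem exists_trap {X : Type} [TopologicalSpace X] [LocallyCompactSpace X] [T2Space X] {f : X → X}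
    (hf : Continuous f) {U : Set X} (hU : IsCompact U) {M : ℕ} (hM : 0 < M)
    (h : ∀ z ∈ U, f^[M] z ∈ interior U) :
    ∃ D : Set X, IsCompact D ∧ U ⊆ D ∧ (∀ z ∈ D, f z ∈ interior D) ∧
      ∀ z ∈ D, ∃ m : ℕ, f^[m] z ∈ U := by
  have key : ∀ j : ℕ, j < M → ∃ E L : Set X, IsCompact E ∧ IsCompact L ∧ U ⊆ E ∧ L ⊆ E ∧
      (∀ z ∈ L, f^[M - j] z ∈ interior U) ∧ (∀ z ∈ E, f z ∈ interior E ∨ z ∈ L) ∧
      ∀ z ∈ E, ∃ m : ℕ, f^[m] z ∈ U := by
    intro j
    induction j with
    | zero =>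
      intro _
      refine ⟨U, U, hU, hU, Subset.rfl, Subset.rfl, by simpa using h, fun z hz => Or.inr hz,
        fun z hz => ⟨0, by simpa using hz⟩⟩
    | succ j ih =>
      intro hj
      obtain ⟨E, L, hE, hL, hUE, hLE, hLm, hEf, hEU⟩ := ih (by omega)
      have hO : IsOpen (f^[M - (j + 1)] ⁻¹' interior U) := isOpen_interior.preimage (hf.iterate _)
      have hsub : f '' L ⊆ f^[M - (j + 1)] ⁻¹' interior U := by
        rintro _ ⟨z, hz, rfl⟩
        rw [mem_preimage, ← Function.iterate_succ_apply]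
        have h1 := hLm z hz
        have h2 : (M - (j + 1)).succ = M - j := by omega
        rwa [h2]
      obtain ⟨L', hL', hfL, hL'O⟩ := exists_compact_between (hL.image hf) hO hsub
      refine ⟨E ∪ L', L', hE.union hL', hL', hUE.trans subset_union_left, subset_union_right,
        fun z hz => hL'O hz, ?_, ?_⟩
      · rintro z (hz | hz)
        · rcases hEf z hz with h1 | h1
          · exact Or.inl (interior_mono subset_union_left h1)
          · exact Or.inl (interior_mono subset_union_right (hfL ⟨z, h1, rfl⟩))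
        · exact Or.inr hz
      · rintro z (hz | hz)
        · exact hEU z hz
        · exact ⟨_, interior_subset (hL'O hz)⟩
  obtain ⟨E, L, hE, hL, hUE, hLE, hLm, hEf, hEU⟩ := key (M - 1) (by omega)
  refine ⟨E, hE, hUE, fun z hz => ?_, hEU⟩
  rcases hEf z hz with h1 | h1
  · exact h1
  · have h2 := hLm z h1
    have h3 : M - (M - 1) = 1 := by omega
    rw [h3, Function.iterate_one] at h2
    exact interior_mono hUE h2

/-- the image of a compact set stays in an open set, for nearby rational maps -/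
theorem near_image {d : ℕ} {x₀ : CV d} (hx₀ : ND x₀) {D W : Set (OnePoint ℂ)} (hD : IsClosed D)
    (hW : IsOpen W) (h : ∀ z ∈ D, sp x₀ z ∈ W) :
    ∀ᶠ x in 𝓝 x₀, ND x → ∀ z ∈ D, sp x z ∈ W := by
  have hne : ∀ p ∈ sphere (0 : ℂ × ℂ) 1, p ≠ 0 := by
    intro p hp h0
    rw [h0] at hp
    simp at hp
  have hK : IsCompact {p : ℂ × ℂ | p ∈ sphere (0 : ℂ × ℂ) 1 ∧ pr p ∈ D} := by
    have hcon : ContinuousOn pr (sphere (0 : ℂ × ℂ) 1) := fun p hp =>
      (Pool.Agent.H790R3.RB.SP.continuousAt_pr (hne p hp)).continuousWithinAt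
    have h1 : IsClosed (sphere (0 : ℂ × ℂ) 1 ∩ pr ⁻¹' D) :=
      hcon.preimage_isClosed_of_isClosed isClosed_sphere hD
    exact (isCompact_sphere (0 : ℂ × ℂ) 1).of_isClosed_subset h1 inter_subset_left
  have hev : ∀ᶠ x in 𝓝 x₀, ∀ p ∈ {p : ℂ × ℂ | p ∈ sphere (0 : ℂ × ℂ) 1 ∧ pr p ∈ D},
      pr (hF x p) ∈ W := by
    apply hK.eventually_forall_of_forall_eventually
    rintro p ⟨hp1, hp2⟩
    have h0 := hne p hp1
    have hc1 : ContinuousAt (fun q : CV d × (ℂ × ℂ) => pr (hF q.1 q.2)) (x₀, p) :=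
      ContinuousAt.comp (f := fun q : CV d × (ℂ × ℂ) => hF q.1 q.2) (g := pr) (x := (x₀, p))
        (Pool.Agent.H790R3.RB.SP.continuousAt_pr (fun h => h0 (hx₀ _ h)))
        (Pool.Agent.H790R3.RB.hF_contDiff d 1).continuous.continuousAt
    apply hc1.preimage_mem_nhds
    apply hW.mem_nhds
    show pr (hF x₀ p) ∈ W
    rw [← Pool.Agent.H790R3.RB.SP.sp_pr hx₀ h0]
    exact h _ hp2
  filter_upwards [hev] with x hx hnd z hz
  obtain ⟨h1, h2⟩ := Pool.Agent.H790R3.RB.SP.pr_hc z
  set p : ℂ × ℂ := ((‖hc z‖⁻¹ : ℝ) : ℂ) • hc z with hp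
  have hn : ‖hc z‖ ≠ 0 := norm_ne_zero_iff.mpr h2
  have hne' : (((‖hc z‖⁻¹ : ℝ) : ℂ)) ≠ 0 := by
    rw [Complex.ofReal_ne_zero]; exact inv_ne_zero hn
  have hp0 : p ≠ 0 := smul_ne_zero hne' h2
  have hpz : pr p = z := by
    rw [← h1]
    rw [Pool.Agent.H790R3.RB.SP.pr_eq_iff hp0 (Pool.Agent.H790R3.RB.SP.pr_hc _).2]
    rw [hp, Pool.Agent.H790R3.RB.cr_smul_left, Pool.Agent.H790R3.RB.cr_self, mul_zero]
  have hpn : p ∈ sphere (0 : ℂ × ℂ) 1 := by
    rw [mem_sphere_zero_iff_norm, hp, norm_smul, Complex.norm_real, norm_inv, norm_norm]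
    exact inv_mul_cancel₀ hn
  have h3 := hx p ⟨hpn, by rw [hpz]; exact hz⟩
  rwa [← Pool.Agent.H790R3.RB.SP.sp_pr hnd hp0, hpz] at h3

/-- Task RQ-TRAP. -/
theorem task (hOPA : Pool.Agent.W757.QR.StOPA) : Pool.Agent.W757.QR.StTRAP := by
  intro d x₀ p hd hnd hs
  have hcont := Pool.Agent.H790R3.RB.SP.sp_cont hnd
  -- the compact neighbourhood
  obtain ⟨hp, hfix, U₀, hU₀, hUV⟩ := id hs
  obtain ⟨U, hUn, hUsub, hUc⟩ := local_compact_nhds hU₀
  have hatt : ∀ z ∈ U, Attd (sp x₀) z := by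
    intro z hz
    refine ⟨p, ∞, hs, ?_⟩
    rw [tendsto_def]
    intro V hV
    filter_upwards [hUV V hV] with k hk
    exact hk z (hUsub hz)
  obtain ⟨k, hk, hk1⟩ : ∃ k : ℕ, (∀ w ∈ U₀, (sp x₀)^[p * k] w ∈ interior U) ∧ 1 ≤ k :=
    ((hUV (interior U) (interior_mem_nhds.mpr hUn)).and (eventually_ge_atTop 1)).exists
  obtain ⟨D, hD, hUD, hDf, hDU⟩ := exists_trap hcont hUc (Nat.mul_pos hp hk1)
    (fun z hz => hk z (hUsub hz))
  have hDatt : ∀ z ∈ D, Attd (sp x₀) z := by
    intro z hz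
    obtain ⟨m, hm⟩ := hDU z hz
    exact attd_of_iter hcont (hatt _ hm)
  have hDinf : ∞ ∈ interior D := interior_mono hUD (mem_interior_iff_mem_nhds.mpr hUn)
  -- uniformity
  have hev1 : ∀ᶠ x in 𝓝 x₀, ∀ z ∈ D, ND x ∧ Attd (sp x) z := by
    apply hD.eventually_forall_of_forall_eventually
    intro z hz
    obtain ⟨σ, V, hσ, hV, hσV⟩ := hOPA d x₀ z hd hnd (hDatt z hz)
    have h1 : ball x₀ σ ×ˢ V ∈ 𝓝 (x₀, z) := prod_mem_nhds (ball_mem_nhds _ hσ) hV
    filter_upwards [h1] with q hq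
    obtain ⟨hq1, hq2⟩ := hq
    rw [mem_ball, dist_eq_norm] at hq1
    exact ⟨(hσV q.1 hq1).1, (hσV q.1 hq1).2 q.2 hq2⟩
  have hev2 := near_image hnd hD.isClosed isOpen_interior hDf
  obtain ⟨σ, hσ, hball⟩ := Metric.eventually_nhds_iff_ball.mp (hev1.and hev2)
  refine ⟨{z : ℂ | (z : OnePoint ℂ) ∉ interior D}, σ, hσ, ?_, ?_⟩
  · have h1 : IsClosed (interior D)ᶜ := isOpen_interior.isClosed_compl
    exact ((OnePoint.isClosed_iff_of_notMem (by simpa using hDinf)).mp h1).2
  · intro x hx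
    have hxb : x ∈ ball x₀ σ := by rwa [mem_ball, dist_eq_norm]
    obtain ⟨h1, h2⟩ := hball x hxb
    have hndx : ND x := (h1 ∞ (interior_subset hDinf)).1
    have h3 := h2 hndx
    refine ⟨hndx, ⟨?_, ?_⟩, (h1 ∞ (interior_subset hDinf)).2, ?_⟩
    · have h1 : IsClosed (interior D)ᶜ := isOpen_interior.isClosed_compl
      exact ((OnePoint.isClosed_iff_of_notMem (by simpa using hDinf)).mp h1).2
    · intro z hz hfz
      have h4 : sp x (z : OnePoint ℂ) =
          (((pol x 0).eval z / (pol x 1).eval z : ℂ) : OnePoint ℂ) :=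
        Pool.Agent.H790R3.RB.PQ.sp_eval x z hz
      have h5 : (z : OnePoint ℂ) ∉ D := by
        intro hzD
        apply hfz
        have h6 := h3 _ hzD
        rw [h4] at h6
        exact h6
      rw [mem_interior]
      refine ⟨(fun z : ℂ => (z : OnePoint ℂ)) ⁻¹' Dᶜ, ?_, ?_, h5⟩
      · intro w hw hw'
        exact hw (interior_subset hw')
      · exact hD.isClosed.isOpen_compl.preimage OnePoint.continuous_coe
    · intro z hz
      have hz' : (z : OnePoint ℂ) ∈ interior D := by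
        by_contra h
        exact hz h
      exact (h1 _ (interior_subset hz')).2

end Pool.Agent.W376.RQTRAP
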