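import Pool.Agent.W886.RU.Stm0

/-!
# Bounded formulas are in `E²`
-/

set_option autoImplicit false

namespace Pool.Agent.W376.RUD0E2

open Pool.Agent.W886.RU

variable {A : ℕ → Bool}

theorem c1 {n : ℕ} {g : (Fin 1 → ℕ) → ℕ} {f : (Fin n → ℕ) → ℕ} (hg : E2 A 1 g) (hf : E2 A n f) :
    E2 A n (fun v => g (fun _ => f v)) :=
  E2.comp (hs := fun _ => f) hg fun _ => hf

theorem c2 {n : ℕ} {g : (Fin 2 → ℕ) → ℕ} {f₀ f₁ : (Fin n → ℕ) → ℕ} (hg : E2 A 2 g)
    (h0 : E2 A n f₀) (h1 : E2 A n f₁) : E2 A n (fun v => g ![f₀ v, f₁ v]) := by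
  have h := E2.comp (hs := ![f₀, f₁]) hg (by
    intro i
    fin_cases i
    · exact h0
    · exact h1)
  have he : (fun v => g ![f₀ v, f₁ v]) = fun v => g (fun i => (![f₀, f₁] : Fin 2 → _) i v) := by
    funext v
    congr 1
    funext i
    fin_cases i <;> rfl
  rw [he]; exact h

theorem csucc {n : ℕ} {f : (Fin n → ℕ) → ℕ} (hf : E2 A n f) : E2 A n (fun v => f v + 1) :=
  c1 E2.succ hf

theorem cconst (n c : ℕ) : E2 A n (fun _ => c) := by
  induction c with
  | zero => exact E2.zero n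
  | succ c ih => exact csucc ih

theorem bnd : E2 A 2 (fun v => (v 0 + 1) * (v 1 + 1)) := E2.mul

theorem add2 : E2 A 2 (fun v => v 0 + v 1) := by
  refine E2.lrec (g := fun v : Fin 1 → ℕ => v 0) (h := fun w : Fin 3 → ℕ => w 0 + 1)
    (b := fun v : Fin 2 → ℕ => (v 0 + 1) * (v 1 + 1)) (E2.proj 0) (csucc (E2.proj 0)) bnd ?_ ?_ ?_
  · intro v; nlinarith
  · intro v
    show 0 + v 0 = v 0
    rw [zero_add]
  · intro v y
    show y + 1 + v 0 = y + v 0 + 1
    ring

theorem cadd {n : ℕ} {f g : (Fin n → ℕ) → ℕ} (hf : E2 A n f) (hg : E2 A n g) :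
    E2 A n (fun v => f v + g v) := c2 add2 hf hg

theorem mul2 : E2 A 2 (fun v => v 0 * v 1) := by
  refine E2.lrec (g := fun v : Fin 1 → ℕ => 0) (h := fun w : Fin 3 → ℕ => w 0 + w 2)
    (b := fun v : Fin 2 → ℕ => (v 0 + 1) * (v 1 + 1)) (E2.zero 1)
    (cadd (E2.proj 0) (E2.proj 2)) bnd ?_ ?_ ?_
  · intro v; nlinarith
  · intro v
    show 0 * v 0 = 0
    rw [zero_mul]
  · intro v y
    show (y + 1) * v 0 = y * v 0 + v 0
    ring

theorem cmul {n : ℕ} {f g : (Fin n → ℕ) → ℕ} (hf : E2 A n f) (hg : E2 A n g) :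
    E2 A n (fun v => f v * g v) := c2 mul2 hf hg

theorem cpoly {n : ℕ} (p : MvPolynomial (Fin n) ℕ) : E2 A n (fun v => MvPolynomial.eval v p) := by
  induction p using MvPolynomial.induction_on with
  | C a => simpa using cconst n a
  | add p q hp hq => simpa using cadd hp hq
  | mul_X p i hp => simpa using cmul hp (E2.proj i)

theorem pred1 : E2 A 1 (fun v => v 0 - 1) := by
  refine E2.lrec (g := fun v : Fin 0 → ℕ => 0) (h := fun w : Fin 2 → ℕ => w 1)
    (b := fun v : Fin 1 → ℕ => v 0) (E2.zero 0) (E2.proj 1) (E2.proj 0) ?_ ?_ ?_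
  · intro v; exact Nat.sub_le _ _
  · intro v; rfl
  · intro v y
    show y + 1 - 1 = y
    rfl

theorem sub2 : E2 A 2 (fun v => v 1 - v 0) := by
  refine E2.lrec (g := fun v : Fin 1 → ℕ => v 0) (h := fun w : Fin 3 → ℕ => w 0 - 1)
    (b := fun v : Fin 2 → ℕ => v 1) (E2.proj 0) (c1 pred1 (E2.proj 0)) (E2.proj 1) ?_ ?_ ?_
  · intro v; exact Nat.sub_le _ _
  · intro v
    show v 0 - 0 = v 0
    rfl
  · intro v y
    show v 0 - (y + 1) = v 0 - y - 1
    omega

theorem csub {n : ℕ} {f g : (Fin n → ℕ) → ℕ} (hf : E2 A n f) (hg : E2 A n g) :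
    E2 A n (fun v => f v - g v) := c2 sub2 hg hf

theorem bexF {n : ℕ} {f : (Fin (n + 1) → ℕ) → ℕ} (hf : E2 A (n + 1) f) (hf1 : ∀ v, f v ≤ 1) :
    E2 A (n + 1) (fun w => ∏ x ∈ Finset.range (w 0 + 1),
      f (Matrix.vecCons x (fun i => w i.succ))) := by
  refine E2.lrec (g := fun v : Fin n → ℕ => f (Matrix.vecCons 0 v))
    (h := fun w : Fin (n + 2) → ℕ => w 0 *
      f (fun i => Fin.cases (motive := fun _ => (Fin (n + 2) → ℕ) → ℕ) (fun w => w 1 + 1)
        (fun j w => w j.succ.succ) i w))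
    (b := fun _ => 1) ?_ ?_ (cconst _ 1) ?_ ?_ ?_
  · have h := E2.comp (A := A) (n := n) (m := n + 1) (g := f)
      (hs := fun i => Fin.cases (motive := fun _ => (Fin n → ℕ) → ℕ) (fun _ => 0)
        (fun j v => v j) i) hf (by
          intro i
          refine Fin.cases ?_ (fun j => ?_) i
          · exact E2.zero n
          · exact E2.proj j)
    have he : (fun v : Fin n → ℕ => f (Matrix.vecCons 0 v)) = fun v => f (fun i =>
        Fin.cases (motive := fun _ => (Fin n → ℕ) → ℕ) (fun _ => 0) (fun j v => v j) i v) := by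
      funext v
      congr 1
      funext i
      refine Fin.cases ?_ (fun j => ?_) i <;> rfl
    rw [he]; exact h
  · refine cmul (E2.proj 0) ?_
    refine E2.comp (A := A) (n := n + 2) (m := n + 1) (g := f) hf ?_
    intro i
    refine Fin.cases ?_ (fun j => ?_) i
    · exact csucc (E2.proj 1)
    · exact E2.proj j.succ.succ
  · intro w
    exact Finset.prod_le_one' fun x _ => hf1 _
  · intro v
    show ∏ x ∈ Finset.range (0 + 1), f (Matrix.vecCons x v) = f (Matrix.vecCons 0 v)
    simp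
  · intro v y
    show ∏ x ∈ Finset.range (y + 1 + 1), f (Matrix.vecCons x v) =
      (∏ x ∈ Finset.range (y + 1), f (Matrix.vecCons x v)) * _
    rw [Finset.prod_range_succ]
    congr 2
    funext i
    refine Fin.cases ?_ (fun j => ?_) i <;> rfl

theorem task : S_D0E2 := by
  intro A n P hP
  induction hP with
  | @eq n p q =>
    refine ⟨fun v => 1 - (1 - ((MvPolynomial.eval v p - MvPolynomial.eval v q) +
      (MvPolynomial.eval v q - MvPolynomial.eval v p))),
      csub (cconst _ 1) (csub (cconst _ 1) (cadd (csub (cpoly p) (cpoly q))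
        (csub (cpoly q) (cpoly p)))), ?_⟩
    intro v
    beta_reduce
    constructor <;> intro h <;> omega
  | @le n p q =>
    refine ⟨fun v => 1 - (1 - (MvPolynomial.eval v p - MvPolynomial.eval v q)),
      csub (cconst _ 1) (csub (cconst _ 1) (csub (cpoly p) (cpoly q))), ?_⟩
    intro v
    beta_reduce
    constructor <;> intro h <;> omega
  | @orc n p =>
    refine ⟨fun v => 1 - (A (MvPolynomial.eval v p)).toNat,
      csub (cconst _ 1) (c1 E2.orc (cpoly p)), ?_⟩
    intro v
    constructor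
    · intro h; simp only [h]; rfl
    · intro h
      have h' : A (MvPolynomial.eval v p) = false := by simpa using h
      simp only [h']; rfl
  | @not n P _ ih =>
    obtain ⟨f, hf, hfv⟩ := ih
    refine ⟨fun v => 1 - f v, csub (cconst _ 1) hf, ?_⟩
    intro v
    constructor
    · intro h; simp only [(hfv v).2 h, Nat.sub_self]
    · intro h
      simp only [(hfv v).1 (not_not.mp h), Nat.sub_zero]
  | @and n P Q _ _ ihP ihQ =>
    obtain ⟨f, hf, hfv⟩ := ihP
    obtain ⟨g, hg, hgv⟩ := ihQ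
    refine ⟨fun v => 1 - (1 - (f v + g v)),
      csub (cconst _ 1) (csub (cconst _ 1) (cadd hf hg)), ?_⟩
    intro v
    by_cases h1 : P v
    · by_cases h2 : Q v
      · simp only [(hfv v).1 h1, (hgv v).1 h2]
        exact ⟨fun _ => by norm_num, fun h => absurd ⟨h1, h2⟩ h⟩
      · simp only [(hfv v).1 h1, (hgv v).2 h2]
        exact ⟨fun h => absurd h.2 h2, fun _ => by norm_num⟩
    · simp only [(hfv v).2 h1]
      refine ⟨fun h => absurd h.1 h1, fun _ => ?_⟩
      omega
  | @bex n P p _ ih =>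
    obtain ⟨f, hf, hfv⟩ := ih
    have hf1 : ∀ v, f v ≤ 1 := by
      intro v
      by_cases h : P v
      · rw [(hfv v).1 h]; exact Nat.zero_le 1
      · rw [(hfv v).2 h]
    have hF := E2.comp (A := A) (n := n) (m := n + 1)
      (hs := fun i => Fin.cases (motive := fun _ => (Fin n → ℕ) → ℕ)
        (fun v => MvPolynomial.eval v p) (fun j v => v j) i) (bexF hf hf1) (by
          intro i
          refine Fin.cases ?_ (fun j => ?_) i
          · exact cpoly p
          · exact E2.proj j)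
    have he : (fun v : Fin n → ℕ => ∏ x ∈ Finset.range (MvPolynomial.eval v p + 1),
        f (Matrix.vecCons x v)) = _ := rfl
    refine ⟨fun v => ∏ x ∈ Finset.range (MvPolynomial.eval v p + 1), f (Matrix.vecCons x v),
      hF, ?_⟩
    intro v
    constructor
    · rintro ⟨x, hx, hPx⟩
      exact Finset.prod_eq_zero (Finset.mem_range.mpr (Nat.lt_succ_of_le hx)) ((hfv _).1 hPx)
    · intro h
      apply Finset.prod_eq_one
      intro x hx
      apply (hfv _).2
      intro hPx
      exact h ⟨x, Nat.lt_succ_iff.mp (Finset.mem_range.mp hx), hPx⟩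

end Pool.Agent.W376.RUD0E2
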