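import Pool.Agent.W842.BV.Stms

/-!
# VCA: the VC bound for the construction from its parts (project BV of helper842)
-/

set_option autoImplicit false

namespace Pool.Agent.W376.BVVCA

open Finset Pool.Agent.W842.BV

theorem t_VCA : Pool.Agent.W842.BV.S_VCA := by
  intro hDBL hNBR hVLA h1 h2 h3 D N r R _ hr hN S hS
  classical
  set S₁ : Finset (Fin D → ZMod N) := univ.filter (fun u => (Sum.inl (Sum.inl u) : Vt D N) ∈ S)
    with hS₁
  set S₂ : Finset (Fin D → ZMod N) := univ.filter (fun u => (Sum.inl (Sum.inr u) : Vt D N) ∈ S)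
    with hS₂
  set S₃ : Finset (Fin D → ZMod (2 * N)) := univ.filter (fun u => (Sum.inr u : Vt D N) ∈ S)
    with hS₃
  have hnb := hNBR hDBL D N r
  have hi1 : Function.Injective (fun u : Fin D → ZMod N => (Sum.inl (Sum.inl u) : Vt D N)) :=
    Sum.inl_injective.comp Sum.inl_injective
  have hi2 : Function.Injective (fun u : Fin D → ZMod N => (Sum.inl (Sum.inr u) : Vt D N)) :=
    Sum.inl_injective.comp Sum.inr_injective
  have hi3 : Function.Injective (fun u : Fin D → ZMod (2 * N) => (Sum.inr u : Vt D N)) :=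
    Sum.inr_injective
  -- a general trace statement
  have key : ∀ T ⊆ S, T.Nonempty → ∃ v : Vt D N, ∀ x ∈ S, (x ∈ T ↔ Adj r v x) := by
    intro T hT hne
    obtain ⟨v, hv⟩ := hS T hT hne
    refine ⟨v, fun x hx => ?_⟩
    rw [← hnb v x, ← hv, mem_inter]
    exact ⟨fun h => h.1, fun h => ⟨h, hx⟩⟩
  have c1 : S₁.card ≤ D + 1 := by
    refine h1 hDBL hVLA D N r R hr hN S₁ ?_
    intro T hT hne
    obtain ⟨v, hv⟩ := key (T.image (fun u => (Sum.inl (Sum.inl u) : Vt D N)))
      (by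
        intro x hx
        obtain ⟨u, hu, rfl⟩ := mem_image.mp hx
        exact (mem_filter.mp (hT hu)).2) (hne.image _)
    have hv' : ∀ u ∈ S₁, (u ∈ T ↔ Adj r v (Sum.inl (Sum.inl u))) := by
      intro u hu
      rw [← hv _ (mem_filter.mp hu).2]
      exact ⟨fun h => mem_image_of_mem _ h, fun h => (hi1.mem_finset_image).mp h⟩
    obtain ⟨t, ht⟩ := hne
    rcases v with (v | v) | v
    · exact absurd ((hv' t (hT ht)).mp ht) (by simp [Adj])
    · exact Or.inl ⟨v, fun u hu => hv' u hu⟩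
    · exact Or.inr ⟨v, fun u hu => hv' u hu⟩
  have c2 : S₂.card ≤ D + 1 := by
    refine h2 hDBL hVLA D N r R hr hN S₂ ?_
    intro T hT hne
    obtain ⟨v, hv⟩ := key (T.image (fun u => (Sum.inl (Sum.inr u) : Vt D N)))
      (by
        intro x hx
        obtain ⟨u, hu, rfl⟩ := mem_image.mp hx
        exact (mem_filter.mp (hT hu)).2) (hne.image _)
    have hv' : ∀ u ∈ S₂, (u ∈ T ↔ Adj r v (Sum.inl (Sum.inr u))) := by
      intro u hu
      rw [← hv _ (mem_filter.mp hu).2]
      exact ⟨fun h => mem_image_of_mem _ h, fun h => (hi2.mem_finset_image).mp h⟩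
    obtain ⟨t, ht⟩ := hne
    rcases v with (v | v) | v
    · exact Or.inl ⟨v, fun u hu => hv' u hu⟩
    · exact absurd ((hv' t (hT ht)).mp ht) (by simp [Adj])
    · exact Or.inr ⟨v, fun u hu => hv' u hu⟩
  have c3 : S₃.card ≤ D + 1 := by
    refine h3 hDBL hVLA D N r R hr hN S₃ ?_
    intro T hT hne
    obtain ⟨v, hv⟩ := key (T.image (fun u => (Sum.inr u : Vt D N)))
      (by
        intro x hx
        obtain ⟨u, hu, rfl⟩ := mem_image.mp hx
        exact (mem_filter.mp (hT hu)).2) (hne.image _)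
    have hv' : ∀ u ∈ S₃, (u ∈ T ↔ Adj r v (Sum.inr u)) := by
      intro u hu
      rw [← hv _ (mem_filter.mp hu).2]
      exact ⟨fun h => mem_image_of_mem _ h, fun h => (hi3.mem_finset_image).mp h⟩
    obtain ⟨t, ht⟩ := hne
    rcases v with (v | v) | v
    · exact Or.inl ⟨v, fun u hu => hv' u hu⟩
    · exact Or.inr ⟨v, fun u hu => hv' u hu⟩
    · exact absurd ((hv' t (hT ht)).mp ht) (by simp [Adj])
  have hcov : S ⊆ (S₁.image (fun u => (Sum.inl (Sum.inl u) : Vt D N)) ∪
      S₂.image (fun u => (Sum.inl (Sum.inr u) : Vt D N))) ∪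
      S₃.image (fun u => (Sum.inr u : Vt D N)) := by
    intro x hx
    rw [mem_union, mem_union]
    rcases x with (x | x) | x
    · exact Or.inl (Or.inl (mem_image.mpr ⟨x, mem_filter.mpr ⟨mem_univ _, hx⟩, rfl⟩))
    · exact Or.inl (Or.inr (mem_image.mpr ⟨x, mem_filter.mpr ⟨mem_univ _, hx⟩, rfl⟩))
    · exact Or.inr (mem_image.mpr ⟨x, mem_filter.mpr ⟨mem_univ _, hx⟩, rfl⟩)
  have d1 := card_le_card hcov
  have d2 := card_union_le (S₁.image (fun u => (Sum.inl (Sum.inl u) : Vt D N)) ∪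
      S₂.image (fun u => (Sum.inl (Sum.inr u) : Vt D N)))
      (S₃.image (fun u => (Sum.inr u : Vt D N)))
  have d3 := card_union_le (S₁.image (fun u => (Sum.inl (Sum.inl u) : Vt D N)))
      (S₂.image (fun u => (Sum.inl (Sum.inr u) : Vt D N)))
  have e1 : (S₁.image (fun u => (Sum.inl (Sum.inl u) : Vt D N))).card ≤ S₁.card := card_image_le
  have e2 : (S₂.image (fun u => (Sum.inl (Sum.inr u) : Vt D N))).card ≤ S₂.card := card_image_le
  have e3 : (S₃.image (fun u => (Sum.inr u : Vt D N))).card ≤ S₃.card := card_image_le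
  omega

end Pool.Agent.W376.BVVCA
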