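import Mathlib
import Pool.Agent.W527.CL.Stm

/-!
# There is no non-compact part
-/

set_option autoImplicit false

namespace Pool.Agent.W376.CLNC
open Pool.Agent.W527.CL NumberField

section
variable {K : Type} [Field K] [NumberField K] (D : FieldData K)

theorem perm_comp (τ : ℂ →+* ℂ) (π : Equiv.Perm (Fin 5)) (h : ∀ k, τ (D.β k) = D.β (π k))
    (φ : K →+* ℂ) : D.perm (τ.comp φ) = π * D.perm φ := by
  refine Equiv.ext fun k => ?_
  apply D.inj
  rw [← D.perm_spec, RingHom.comp_apply, D.perm_spec, h]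
  rfl

theorem perm_surj (p : Equiv.Perm (Fin 5)) : ∃ φ : K →+* ℂ, D.perm φ = p := by
  obtain ⟨φ, hφ⟩ := D.surj p
  refine ⟨φ, Equiv.ext fun k => ?_⟩
  apply D.inj
  rw [← D.perm_spec, hφ]

/-- composition with an automorphism -/
def cmp (K : Type) [Field K] (τ : ℂ ≃+* ℂ) : (K →+* ℂ) ≃ (K →+* ℂ) where
  toFun φ := (τ : ℂ →+* ℂ).comp φ
  invFun φ := (τ.symm : ℂ →+* ℂ).comp φ
  left_inv φ := by
    ext x
    simp
  right_inv φ := by
    ext x
    simp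

theorem twist {N : AddSubgroup ((K →+* ℂ) → ℤ)} (hN : Stable K N) {z : (K →+* ℂ) → ℝ}
    (hz : ∀ n ∈ N, ∑ φ, (n φ : ℝ) * z φ = 0) (τ : ℂ ≃+* ℂ) :
    ∀ n ∈ N, ∑ φ, (n φ : ℝ) * z ((τ : ℂ →+* ℂ).comp φ) = 0 := by
  intro n hn
  have h1 := hz _ (hN τ.symm n hn)
  rw [← h1]
  refine Fintype.sum_equiv (cmp K τ) _ _ fun φ => ?_
  have h2 : ((τ.symm : ℂ →+* ℂ).comp (cmp K τ φ)) = φ := (cmp K τ).symm_apply_apply φ
  rw [h2]
  rfl

theorem stepA (hA : S_AUT) (hZ : S_ZERO) {N : AddSubgroup ((K →+* ℂ) → ℤ)} (hN : Stable K N)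
    (H : ∀ z ∈ Real0 K N, ∃ X : Matrix (Fin 4) (Fin 4) ℝ, X.IsSymm ∧
      ∀ φ, z φ = ev (D.mu X) (D.perm φ)) {z : (K →+* ℂ) → ℝ} (hz : z ∈ Real0 K N)
    {X : Matrix (Fin 4) (Fin 4) ℝ} (hX : ∀ φ, z φ = ev (D.mu X) (D.perm φ))
    (π : Equiv.Perm (Fin 5)) : ∃ X' : Matrix (Fin 4) (Fin 4) ℝ, X'.IsSymm ∧ ∀ i,
      D.mu X i (π 0) - D.mu X i (π 1) = D.mu X' i 0 - D.mu X' i 1 ∧
      D.mu X i (π 0) - D.mu X i (π 2) = D.mu X' i 0 - D.mu X' i 2 := by
  obtain ⟨τ, hτ⟩ := hA K D π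
  let σ : ℂ ≃+* ℂ := (starRingAut : ℂ ≃+* ℂ).trans τ
  have hσ : ∀ φ : K →+* ℂ, ((σ : ℂ →+* ℂ)).comp φ =
      (τ : ℂ →+* ℂ).comp (ComplexEmbedding.conjugate φ) := by
    intro φ
    ext x
    rfl
  have hσβ : ∀ k, (σ : ℂ →+* ℂ) (D.β k) = D.β ((π * Equiv.swap 3 4 : Equiv.Perm (Fin 5)) k) := by
    intro k
    have h1 : (σ : ℂ →+* ℂ) (D.β k) = τ ((starRingEnd ℂ) (D.β k)) := rfl
    rw [h1, D.conj, hτ]
    rfl
  have hmem : (fun φ => (z ((τ : ℂ →+* ℂ).comp φ) + z ((σ : ℂ →+* ℂ).comp φ)) / 2) ∈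
      Real0 K N := by
    refine ⟨fun φ => ?_, fun n hn => ?_⟩
    · have h1 : ((σ : ℂ →+* ℂ)).comp (ComplexEmbedding.conjugate φ) = (τ : ℂ →+* ℂ).comp φ := by
        rw [hσ]
        congr 1
        ext x
        simp
      have h2 := hσ φ
      simp only [h1, ← h2]
      ring
    · have h1 := twist hN hz.2 τ n hn
      have h2 := twist hN hz.2 σ n hn
      have h3 : ∑ φ, (n φ : ℝ) *
          ((z ((τ : ℂ →+* ℂ).comp φ) + z ((σ : ℂ →+* ℂ).comp φ)) / 2) =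
          ((∑ φ, (n φ : ℝ) * z ((τ : ℂ →+* ℂ).comp φ)) +
            ∑ φ, (n φ : ℝ) * z ((σ : ℂ →+* ℂ).comp φ)) / 2 := by
        rw [← Finset.sum_add_distrib, Finset.sum_div]
        refine Finset.sum_congr rfl fun φ _ => ?_
        ring
      rw [h3, h1, h2]
      norm_num
  obtain ⟨X', hX's, hX'⟩ := H _ hmem
  refine ⟨X', hX's, ?_⟩
  have hev : ∀ p, ev (fun i k => (D.mu X i (π k) + D.mu X i (π (Equiv.swap 3 4 k))) / 2 -
      D.mu X' i k) p = 0 := by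
    intro p
    obtain ⟨φ, hφ⟩ := perm_surj D p
    have h1 := hX' φ
    rw [hX, hX, perm_comp D (τ : ℂ →+* ℂ) π hτ, perm_comp D (σ : ℂ →+* ℂ) _ hσβ, hφ] at h1
    have h2 : ev (fun i k => (D.mu X i (π k) + D.mu X i (π (Equiv.swap 3 4 k))) / 2 -
        D.mu X' i k) p = (ev (D.mu X) (π * p) + ev (D.mu X) (π * Equiv.swap 3 4 * p)) / 2 -
        ev (D.mu X') p := by
      unfold ev
      rw [← Finset.sum_add_distrib, Finset.sum_div, ← Finset.sum_sub_distrib]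
      refine Finset.sum_congr rfl fun i _ => ?_
      simp only [Equiv.Perm.mul_apply]
      ring
    rw [h2, h1, sub_self]
  have hc := hZ ℝ _ hev
  have s0 : Equiv.swap (3 : Fin 5) 4 0 = 0 := by decide
  have s1 : Equiv.swap (3 : Fin 5) 4 1 = 1 := by decide
  have s2 : Equiv.swap (3 : Fin 5) 4 2 = 2 := by decide
  intro i
  have c1 := hc i 0 1
  have c2 := hc i 0 2
  simp only [s0, s1, s2] at c1 c2
  constructor
  · linarith
  · linarith

/-- choice of a permutation with prescribed values at `0`, `1`, `2` -/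
theorem exists_perm (a b c : Fin 5) (hab : a ≠ b) (hac : a ≠ c) (hbc : b ≠ c) :
    ∃ π : Equiv.Perm (Fin 5), π 0 = a ∧ π 1 = b ∧ π 2 = c := by
  refine ⟨Equiv.swap 0 a * Equiv.swap 1 (Equiv.swap 0 a b) *
    Equiv.swap 2 (Equiv.swap 1 (Equiv.swap 0 a b) (Equiv.swap 0 a c)), ?_⟩
  revert a b c
  decide

theorem starEq (hA : S_AUT) (hZ : S_ZERO) {N : AddSubgroup ((K →+* ℂ) → ℤ)} (hN : Stable K N)
    (H : ∀ z ∈ Real0 K N, ∃ X : Matrix (Fin 4) (Fin 4) ℝ, X.IsSymm ∧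
      ∀ φ, z φ = ev (D.mu X) (D.perm φ)) {z : (K →+* ℂ) → ℝ} (hz : z ∈ Real0 K N)
    {X : Matrix (Fin 4) (Fin 4) ℝ} (hX : ∀ φ, z φ = ev (D.mu X) (D.perm φ))
    (k k' : Fin 5) :
    ∑ i, (D.mu X i k - D.mu X i k') * (D.lam i 0 - D.lam i 1) = 0 := by
  have main : ∀ a b c : Fin 5, a ≠ b → a ≠ c → b ≠ c →
      ∑ i, (D.mu X i a - D.mu X i b) * (D.lam i 0 - D.lam i 2) =
        ∑ i, (D.mu X i a - D.mu X i c) * (D.lam i 0 - D.lam i 1) := by
    intro a b c hab hac hbc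
    obtain ⟨π, h0, h1, h2⟩ := exists_perm a b c hab hac hbc
    obtain ⟨X', hs, hX'⟩ := stepA D hA hZ hN H hz hX π
    rw [h0, h1, h2] at hX'
    have e1 : ∑ i, (D.mu X i a - D.mu X i b) * (D.lam i 0 - D.lam i 2) =
        ∑ i, ∑ j, X' i j * (D.lam j 0 - D.lam j 1) * (D.lam i 0 - D.lam i 2) := by
      refine Finset.sum_congr rfl fun i _ => ?_
      rw [(hX' i).1]
      unfold FieldData.mu
      rw [← Finset.sum_sub_distrib, Finset.sum_mul]
      refine Finset.sum_congr rfl fun j _ => ?_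
      ring
    have e2 : ∑ i, (D.mu X i a - D.mu X i c) * (D.lam i 0 - D.lam i 1) =
        ∑ i, ∑ j, X' i j * (D.lam j 0 - D.lam j 2) * (D.lam i 0 - D.lam i 1) := by
      refine Finset.sum_congr rfl fun i _ => ?_
      rw [(hX' i).2]
      unfold FieldData.mu
      rw [← Finset.sum_sub_distrib, Finset.sum_mul]
      refine Finset.sum_congr rfl fun j _ => ?_
      ring
    rw [e1, e2, Finset.sum_comm]
    refine Finset.sum_congr rfl fun i _ => Finset.sum_congr rfl fun j _ => ?_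
    rw [hs.apply]
    ring
  by_cases hkk : k = k'
  · subst hkk
    simp
  obtain ⟨a, b, hab, hak, hak', hbk, hbk'⟩ : ∃ a b : Fin 5, a ≠ b ∧ a ≠ k ∧ a ≠ k' ∧ b ≠ k ∧
      b ≠ k' := by
    clear main hX hz H hN hkk
    revert k k'
    decide
  have m1 := main a b k hab hak hbk
  have m2 := main a b k' hab hak' hbk'
  have m3 : ∑ i, (D.mu X i k - D.mu X i k') * (D.lam i 0 - D.lam i 1) =
      (∑ i, (D.mu X i a - D.mu X i k') * (D.lam i 0 - D.lam i 1)) -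
        ∑ i, (D.mu X i a - D.mu X i k) * (D.lam i 0 - D.lam i 1) := by
    rw [← Finset.sum_sub_distrib]
    refine Finset.sum_congr rfl fun i _ => ?_
    ring
  rw [m3, ← m1, ← m2, sub_self]

/-- rational relations between the logarithms are trivial -/
theorem rat_zero (hI : S_INDEP) (hP : S_POS) (q : Fin 4 → ℚ)
    (h : ∑ i, (q i : ℝ) * (D.lam i 0 - D.lam i 1) = 0) : q = 0 := by
  obtain ⟨d, hd, m, hm⟩ : ∃ d : ℤ, d ≠ 0 ∧ ∃ m : Fin 4 → ℤ, ∀ i, (m i : ℚ) = d * q i := by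
    refine ⟨∏ i, ((q i).den : ℤ), ?_, fun i => (∏ j ∈ Finset.univ.erase i, ((q j).den : ℤ)) *
      (q i).num, fun i => ?_⟩
    · exact Finset.prod_ne_zero_iff.mpr fun i _ => by exact_mod_cast (q i).den_ne_zero
    · have h1 : ∏ j, ((q j).den : ℤ) = (∏ j ∈ Finset.univ.erase i, ((q j).den : ℤ)) *
          ((q i).den : ℤ) := (Finset.prod_erase_mul _ _ (Finset.mem_univ i)).symm
      rw [h1]
      have h2 : ((q i).den : ℚ) * q i = (q i).num := by
        rw [mul_comm]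
        exact Rat.mul_den_eq_num (q i)
      push_cast
      rw [mul_assoc, h2]
  have h1 : ∑ i, (m i : ℝ) * (D.lam i 0 - D.lam i 1) = 0 := by
    have h2 : ∀ i, (m i : ℝ) = (d : ℝ) * (q i : ℝ) := fun i => by exact_mod_cast hm i
    have h3 : ∑ i, (m i : ℝ) * (D.lam i 0 - D.lam i 1) =
        (d : ℝ) * ∑ i, (q i : ℝ) * (D.lam i 0 - D.lam i 1) := by
      rw [Finset.mul_sum]
      refine Finset.sum_congr rfl fun i _ => ?_
      rw [h2]
      ring
    rw [h3, h, mul_zero]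
  have h2 : ∑ i, (m i : ℝ) * D.lam i 0 = ∑ i, (m i : ℝ) * D.lam i 1 := by
    have h3 : ∑ i, (m i : ℝ) * (D.lam i 0 - D.lam i 1) =
        (∑ i, (m i : ℝ) * D.lam i 0) - ∑ i, (m i : ℝ) * D.lam i 1 := by
      rw [← Finset.sum_sub_distrib]
      refine Finset.sum_congr rfl fun i _ => ?_
      ring
    rw [h3] at h1
    exact sub_eq_zero.mp h1
  have hexp : ∀ k : Fin 5, k ≠ 3 → k ≠ 4 →
      ((Real.exp (∑ i, (m i : ℝ) * D.lam i k) : ℝ) : ℂ) = ∏ j, (D.β k + (nn j : ℂ)) ^ m j := by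
    intro k h3 h4
    rw [Real.exp_sum]
    push_cast
    refine Finset.prod_congr rfl fun j _ => ?_
    obtain ⟨r, hr, he⟩ := hP K D k j h3 h4
    have hl : D.lam j k = Real.log r := by
      unfold FieldData.lam
      rw [he, Complex.norm_real, Real.norm_eq_abs, abs_of_pos hr]
    have he2 : Real.exp ((m j : ℝ) * D.lam j k) = r ^ (m j) := by
      rw [hl, mul_comm, Real.exp_mul, Real.exp_log hr, Real.rpow_intCast]
    rw [he, ← Complex.ofReal_zpow, ← he2]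
    push_cast
    rfl
  have h4 : m = 0 := by
    refine hI K D m ?_
    rw [← hexp 0 (by decide) (by decide), ← hexp 1 (by decide) (by decide), h2]
  funext i
  have h5 := hm i
  rw [h4] at h5
  have h6 : (d : ℚ) ≠ 0 := by exact_mod_cast hd
  have h7 : (d : ℚ) * q i = 0 := by
    rw [← h5]
    simp
  exact (mul_eq_zero.mp h7).resolve_left h6

end

theorem main (hA : S_AUT) (hZ : S_ZERO) (hR : S_RAT) (hI : S_INDEP) (hP : S_POS) :
    S_NONCOMPACT := by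
  intro K _ _ D N hN H z hz
  by_contra hne
  obtain ⟨φ₀, h0⟩ : ∃ φ₀, z φ₀ ≠ 0 := by
    by_contra hcon
    push Not at hcon
    exact hne (funext hcon)
  obtain ⟨ψ, hψ⟩ : ∃ ψ : Module.Dual ℚ ℝ, ψ (z φ₀) ≠ 0 := by
    by_contra hcon
    push Not at hcon
    exact h0 ((Module.forall_dual_apply_eq_zero_iff ℚ (z φ₀)).mp hcon)
  have hmem : (fun φ => ((ψ (z φ) : ℚ) : ℝ)) ∈ Real0 K N := by
    refine ⟨fun φ => ?_, fun n hn => ?_⟩
    · simp only [hz.1 φ]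
    · have h1 := hz.2 n hn
      have h2 : ψ (∑ φ, (n φ : ℝ) * z φ) = 0 := by
        rw [h1, map_zero]
      rw [map_sum] at h2
      have h3 : ∀ φ, ψ ((n φ : ℝ) * z φ) = (n φ : ℚ) * ψ (z φ) := by
        intro φ
        have h4 : (n φ : ℝ) * z φ = (n φ : ℤ) • z φ := by
          rw [zsmul_eq_mul]
        rw [h4, map_zsmul, zsmul_eq_mul]
      simp only [h3] at h2
      have h5 : (∑ φ, (n φ : ℝ) * ((ψ (z φ) : ℚ) : ℝ)) = 0 := by exact_mod_cast h2
      exact h5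
  obtain ⟨X, hXs, hX⟩ := H _ hmem
  have hrat : ∀ p, ∃ q : ℚ, ev (D.mu X) p = q := by
    intro p
    obtain ⟨φ, hφ⟩ := perm_surj D p
    refine ⟨ψ (z φ), ?_⟩
    rw [← hφ]
    exact (hX φ).symm
  have hdiff := hR _ hrat
  have hconst : ∀ i k k', D.mu X i k - D.mu X i k' = 0 := by
    intro i k k'
    choose q hq using fun i => hdiff i k k'
    have h1 := starEq D hA hZ hN H hmem hX k k'
    have h2 : ∑ i, (q i : ℝ) * (D.lam i 0 - D.lam i 1) = 0 := by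
      rw [← h1]
      refine Finset.sum_congr rfl fun i _ => ?_
      rw [hq i]
    have h3 := rat_zero D hI hP q h2
    rw [hq i, h3]
    simp
  have h1 := hX φ₀
  have h2 : ev (D.mu X) (D.perm φ₀) = 0 := by
    unfold ev
    exact Finset.sum_eq_zero fun i _ => hconst i _ _
  rw [h2] at h1
  exact hψ (by exact_mod_cast h1)

end Pool.Agent.W376.CLNC

namespace Pool.Agent.W376.CLNONCOMPACT
open Pool.Agent.W527.CL

theorem t_NONCOMPACT (hA : S_AUT) (hZ : S_ZERO) (hR : S_RAT) (hI : S_INDEP) (hP : S_POS) :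
    Pool.Agent.W527.CL.S_NONCOMPACT :=
  Pool.Agent.W376.CLNC.main hA hZ hR hI hP

end Pool.Agent.W376.CLNONCOMPACT
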