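import Mathlib
import Pool.Agent.W527.PC.Stm

/-!
# Compactness, and no torsion of order `p`
-/

set_option autoImplicit false

namespace Pool.Agent.W376.PCCO
open Pool.Agent.W527.PC

/-- no `p`-torsion in `ℤ_p` for odd `p` -/
theorem int_torsion (p : ℕ) [hp : Fact p.Prime] (h2 : p ≠ 2) (x : ℤ_[p]) (hx : x ^ p = 1) :
    x = 1 := by
  have hodd : Odd p := hp.out.odd_of_ne_two h2
  have hp0 : (p : ℤ_[p]) ≠ 0 := by exact_mod_cast hp.out.ne_zero
  have h1 : PadicInt.toZMod x = 1 := by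
    have h3 : (PadicInt.toZMod x) ^ p = 1 := by rw [← map_pow, hx, map_one]
    rwa [ZMod.pow_card] at h3
  have h3 : x - 1 ∈ RingHom.ker (PadicInt.toZMod (p := p)) := by
    rw [RingHom.mem_ker, map_sub, h1, map_one, sub_self]
  rw [PadicInt.ker_toZMod, PadicInt.maximalIdeal_eq_span_p, Ideal.mem_span_singleton] at h3
  obtain ⟨z, hz⟩ := h3
  have hxz : x = 1 + p * z := by
    rw [← hz]
    ring
  obtain ⟨t, ht⟩ := odd_sq_dvd_geom_sum₂_sub (a := (1 : ℤ_[p])) (b := z) hodd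
  rw [← hxz] at ht
  simp only [one_pow, mul_one] at ht
  have hS : ∑ i ∈ Finset.range p, x ^ i = (p : ℤ_[p]) * (1 + (p : ℤ_[p]) * t) := by
    linear_combination ht
  have hu : (1 : ℤ_[p]) + p * t ≠ 0 := by
    intro h0
    have h4 : PadicInt.toZMod ((1 : ℤ_[p]) + (p : ℤ_[p]) * t) = 0 := by rw [h0, map_zero]
    rw [map_add, map_one, map_mul, map_natCast, ZMod.natCast_self, zero_mul, add_zero] at h4
    exact one_ne_zero h4
  have h5 : (∑ i ∈ Finset.range p, x ^ i) * (x - 1) = 0 := by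
    rw [geom_sum_mul, hx, sub_self]
  have h6 : (∑ i ∈ Finset.range p, x ^ i) ≠ 0 := by
    rw [hS]
    exact mul_ne_zero hp0 hu
  exact sub_eq_zero.mp ((mul_eq_zero.mp h5).resolve_left h6)

theorem torsion (p : ℕ) [hp : Fact p.Prime] (h2 : p ≠ 2) (x : ℚ_[p]) (hn : ‖x‖ = 1)
    (hx : x ^ p = 1) : x = 1 := by
  obtain ⟨y, hy⟩ : ∃ y : ℤ_[p], (y : ℚ_[p]) = x := ⟨⟨x, hn.le⟩, rfl⟩
  have h3 : y = 1 := by
    refine int_torsion p h2 y ?_
    refine Subtype.ext ?_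
    rw [PadicInt.coe_pow, hy, hx, PadicInt.coe_one]
  rw [← hy, h3, PadicInt.coe_one]

/-- the inclusion of the units -/
noncomputable def inc (Φ : Type) (p : ℕ) [Fact p.Prime] (v : Φ → ℤ_[p]ˣ) : Φ → ℚ_[p]ˣ :=
  fun φ => Units.map (PadicInt.Coe.ringHom (p := p) : ℤ_[p] →* ℚ_[p]) (v φ)

theorem inc_cont (Φ : Type) (p : ℕ) [Fact p.Prime] : Continuous (inc Φ p) := by
  refine continuous_pi fun φ => ?_
  have h1 : Continuous (Units.map (PadicInt.Coe.ringHom (p := p) : ℤ_[p] →* ℚ_[p])) :=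
    Continuous.units_map _ continuous_subtype_val
  exact h1.comp (continuous_apply φ)

theorem compact (Φ : Type) (p : ℕ) [Fact p.Prime] :
    IsCompact {u : Φ → ℚ_[p]ˣ | ∀ φ, ‖(u φ : ℚ_[p])‖ = 1} := by
  have h1 : {u : Φ → ℚ_[p]ˣ | ∀ φ, ‖(u φ : ℚ_[p])‖ = 1} ⊆ Set.range (inc Φ p) := by
    intro u hu
    refine ⟨fun φ => ⟨⟨(u φ : ℚ_[p]), (hu φ).le⟩, ⟨((u φ)⁻¹ : ℚ_[p]ˣ), ?_⟩, ?_, ?_⟩, ?_⟩
    · have h2 := hu φ
      rw [Units.val_inv_eq_inv_val, norm_inv, h2, inv_one]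
    · refine Subtype.ext ?_
      change (u φ : ℚ_[p]) * (((u φ)⁻¹ : ℚ_[p]ˣ) : ℚ_[p]) = 1
      exact Units.mul_inv (u φ)
    · refine Subtype.ext ?_
      change (((u φ)⁻¹ : ℚ_[p]ˣ) : ℚ_[p]) * (u φ : ℚ_[p]) = 1
      exact Units.inv_mul (u φ)
    · funext φ
      exact Units.ext rfl
  refine (isCompact_range (inc_cont Φ p)).of_isClosed_subset ?_ h1
  have h2 : {u : Φ → ℚ_[p]ˣ | ∀ φ, ‖(u φ : ℚ_[p])‖ = 1} =
      ⋂ φ, {u : Φ → ℚ_[p]ˣ | ‖(u φ : ℚ_[p])‖ = 1} := by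
    ext u
    simp only [Set.mem_ofPred_eq, Set.mem_iInter]
  rw [h2]
  refine isClosed_iInter fun φ => isClosed_eq ?_ continuous_const
  exact continuous_norm.comp (Units.continuous_val.comp (continuous_apply φ))

theorem main : S_COMPACT := by
  intro Φ _ p _ Λ h2 hΛ
  have hsub : (Λ.topologicalClosure : Set (Φ → ℚ_[p]ˣ)) ⊆
      {u : Φ → ℚ_[p]ˣ | ∀ φ, ‖(u φ : ℚ_[p])‖ = 1} := by
    rw [Subgroup.topologicalClosure_coe]
    exact closure_minimal (fun u hu => hΛ u hu) (compact Φ p).isClosed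
  refine ⟨(compact Φ p).of_isClosed_subset Λ.isClosed_topologicalClosure hsub, ?_⟩
  intro a ha hap
  funext φ
  refine Units.ext ?_
  refine torsion p h2 _ (hsub ha φ) ?_
  have h3 := congrFun hap φ
  rw [Pi.pow_apply, Pi.one_apply] at h3
  have h4 := congrArg (fun y : ℚ_[p]ˣ => (y : ℚ_[p])) h3
  simpa using h4

end Pool.Agent.W376.PCCO

namespace Pool.Agent.W376.PCCOMPACT

theorem t_COMPACT : Pool.Agent.W527.PC.S_COMPACT := Pool.Agent.W376.PCCO.main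

end Pool.Agent.W376.PCCOMPACT
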