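import Pool.Agent.W968.SC.Def

/-!
Embedding the rationals into a computable tree of gaps.
-/

set_option autoImplicit false

namespace Pool.Agent.W376.SCqe

open Nat.Partrec (Code)
open Pool.Agent.Results.MP_f7ace6_lc.SharpErshov
open Pool.Agent.W968.SC

theorem rat_surj (x : ℚ) : ∃ n, rat n = x := by
  refine ⟨Nat.pair x.num.toNat (Nat.pair (-x.num).toNat (x.den - 1)), ?_⟩
  unfold rat
  simp only [Nat.unpair_pair]
  have h1 : ((x.num.toNat : ℚ) - ((-x.num).toNat : ℚ)) = (x.num : ℚ) := by
    have : ((x.num.toNat : ℤ) - ((-x.num).toNat : ℤ)) = x.num := by omega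
    exact_mod_cast this
  have h2 : (((x.den - 1 : ℕ) : ℚ) + 1) = (x.den : ℚ) := by
    have : x.den - 1 + 1 = x.den := Nat.succ_pred_eq_of_pos x.den_pos
    exact_mod_cast this
  rw [h1, h2]
  exact x.num_div_den

/-- comparison -/
def ltb (i n : ℕ) : Bool :=
  decide (i.unpair.1 * (n.unpair.2.unpair.2 + 1) + n.unpair.2.unpair.1 * (i.unpair.2.unpair.2 + 1) <
    n.unpair.1 * (i.unpair.2.unpair.2 + 1) + i.unpair.2.unpair.1 * (n.unpair.2.unpair.2 + 1))

theorem ltb_iff (i n : ℕ) : ltb i n = true ↔ rat i < rat n := by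
  unfold ltb rat
  rw [decide_eq_true_iff, div_lt_div_iff₀ (by positivity) (by positivity)]
  rw [← Nat.cast_lt (α := ℚ)]
  push_cast
  constructor <;> intro h <;> linarith

theorem ltb_primrec : Primrec₂ ltb := by
  unfold ltb
  have hf : Primrec (fun p : ℕ × ℕ => p.1.unpair.1) :=
    Primrec.fst.comp (Primrec.unpair.comp Primrec.fst)
  have hg : Primrec (fun p : ℕ × ℕ => p.2.unpair.1) :=
    Primrec.fst.comp (Primrec.unpair.comp Primrec.snd)
  have hf2 : Primrec (fun p : ℕ × ℕ => p.1.unpair.2.unpair.1) :=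
    Primrec.fst.comp (Primrec.unpair.comp (Primrec.snd.comp (Primrec.unpair.comp Primrec.fst)))
  have hg2 : Primrec (fun p : ℕ × ℕ => p.2.unpair.2.unpair.1) :=
    Primrec.fst.comp (Primrec.unpair.comp (Primrec.snd.comp (Primrec.unpair.comp Primrec.snd)))
  have hf3 : Primrec (fun p : ℕ × ℕ => p.1.unpair.2.unpair.2 + 1) :=
    Primrec.succ.comp
      (Primrec.snd.comp (Primrec.unpair.comp (Primrec.snd.comp (Primrec.unpair.comp Primrec.fst))))
  have hg3 : Primrec (fun p : ℕ × ℕ => p.2.unpair.2.unpair.2 + 1) :=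
    Primrec.succ.comp
      (Primrec.snd.comp (Primrec.unpair.comp (Primrec.snd.comp (Primrec.unpair.comp Primrec.snd))))
  have h1 : Primrec (fun p : ℕ × ℕ => p.1.unpair.1 * (p.2.unpair.2.unpair.2 + 1) +
      p.2.unpair.2.unpair.1 * (p.1.unpair.2.unpair.2 + 1)) :=
    Primrec.nat_add.comp (Primrec.nat_mul.comp hf hg3) (Primrec.nat_mul.comp hg2 hf3)
  have h2 : Primrec (fun p : ℕ × ℕ => p.2.unpair.1 * (p.1.unpair.2.unpair.2 + 1) +
      p.1.unpair.2.unpair.1 * (p.2.unpair.2.unpair.2 + 1)) :=
    Primrec.nat_add.comp (Primrec.nat_mul.comp hg hf3) (Primrec.nat_mul.comp hf2 hg3)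
  exact (Primrec.nat_lt.comp h1 h2).decide

/-- path of comparisons -/
def ps (x : ℚ) : ℕ → ℕ
  | 0 => 0
  | i + 1 => 2 * ps x i + 1 + (if rat i < x then 1 else 0)

/-- the first index of `rat n`, searched up to `k` -/
def fi (n : ℕ) : ℕ → ℕ
  | 0 => 0
  | k + 1 => bif (!ltb (fi n k) n && !ltb n (fi n k)) then fi n k else k + 1

def psb (n : ℕ) : ℕ → ℕ
  | 0 => 0
  | i + 1 => 2 * psb n i + 1 + (bif ltb i n then 1 else 0)

theorem psb_eq (n i : ℕ) : psb n i = ps (rat n) i := by
  induction i with
  | zero => rfl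
  | succ i ih =>
    unfold psb ps
    rw [ih]
    congr 1
    by_cases h : rat i < rat n
    · rw [if_pos h, (ltb_iff i n).mpr h]; rfl
    · rw [if_neg h]
      have : ltb i n = false := by
        rw [← Bool.not_eq_true, ltb_iff]; exact h
      rw [this]; rfl

open Classical in
theorem fi_eq (n k : ℕ) : fi n k = min (Nat.find (rat_surj (rat n))) k := by
  induction k with
  | zero => simp [fi]
  | succ k ih =>
    unfold fi
    rw [ih]
    by_cases hk : Nat.find (rat_surj (rat n)) ≤ k
    · rw [min_eq_left hk, min_eq_left (hk.trans (Nat.le_succ k))]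
      have h := Nat.find_spec (rat_surj (rat n))
      have h1 : ltb (Nat.find (rat_surj (rat n))) n = false := by
        rw [← Bool.not_eq_true, ltb_iff, h]; exact lt_irrefl _
      have h2 : ltb n (Nat.find (rat_surj (rat n))) = false := by
        rw [← Bool.not_eq_true, ltb_iff, h]; exact lt_irrefl _
      rw [h1, h2]; rfl
    · push Not at hk
      rw [min_eq_right hk.le, min_eq_right (Nat.succ_le_of_lt hk)]
      have h := Nat.find_min (rat_surj (rat n)) hk
      rcases lt_or_gt_of_ne h with h | h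
      · rw [(ltb_iff k n).mpr h]; rfl
      · rw [(ltb_iff n k).mpr h]; simp

open Classical in
theorem fi_self (n : ℕ) : fi n n = Nat.find (rat_surj (rat n)) := by
  rw [fi_eq]
  exact min_eq_left (Nat.find_min' _ rfl)

theorem psb_primrec : Primrec₂ psb := by
  have h : Primrec₂ (fun (n i : ℕ) => (Nat.rec 0
      (fun i p => 2 * p + 1 + (bif ltb i n then 1 else 0)) i : ℕ)) := by
    refine Primrec.nat_rec (f := fun _ : ℕ => 0)
      (g := fun (n : ℕ) (p : ℕ × ℕ) => 2 * p.2 + 1 + (bif ltb p.1 n then 1 else 0))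
      (Primrec.const 0) ?_
    have h1 : Primrec (fun q : ℕ × (ℕ × ℕ) => 2 * q.2.2 + 1) :=
      Primrec.succ.comp (Primrec.nat_mul.comp (Primrec.const 2) (Primrec.snd.comp Primrec.snd))
    have h2 : Primrec (fun q : ℕ × (ℕ × ℕ) => ltb q.2.1 q.1) :=
      ltb_primrec.comp (Primrec.fst.comp Primrec.snd) Primrec.fst
    have h3 : Primrec (fun q : ℕ × (ℕ × ℕ) => (bif ltb q.2.1 q.1 then 1 else 0 : ℕ)) :=
      Primrec.cond h2 (Primrec.const 1) (Primrec.const 0)
    exact Primrec.nat_add.comp h1 h3
  refine h.of_eq ?_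
  intro n i
  induction i with
  | zero => rfl
  | succ i ih => simp only [psb]; rw [← ih]

theorem fi_primrec : Primrec₂ fi := by
  have h : Primrec₂ (fun (n i : ℕ) => (Nat.rec 0
      (fun k p => bif (!ltb p n && !ltb n p) then p else k + 1) i : ℕ)) := by
    refine Primrec.nat_rec (f := fun _ : ℕ => 0)
      (g := fun (n : ℕ) (p : ℕ × ℕ) => bif (!ltb p.2 n && !ltb n p.2) then p.2 else p.1 + 1)
      (Primrec.const 0) ?_
    have h2 : Primrec (fun q : ℕ × (ℕ × ℕ) => ltb q.2.2 q.1) :=
      ltb_primrec.comp (Primrec.snd.comp Primrec.snd) Primrec.fst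
    have h3 : Primrec (fun q : ℕ × (ℕ × ℕ) => ltb q.1 q.2.2) :=
      ltb_primrec.comp Primrec.fst (Primrec.snd.comp Primrec.snd)
    exact Primrec.cond (Primrec.and.comp (Primrec.not.comp h2) (Primrec.not.comp h3))
      (Primrec.snd.comp Primrec.snd) (Primrec.succ.comp (Primrec.fst.comp Primrec.snd))
  refine h.of_eq ?_
  intro n i
  induction i with
  | zero => rfl
  | succ i ih => simp only [fi]; rw [← ih]

open Classical in
theorem tree_emb {L : ℕ → ℕ → Prop} (hr : ∀ x, L x x) (ht : ∀ x y z, L x y → L y z → L x z)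
    (ha : ∀ x y, L x y → L y x → x = y) (z b u v : ℕ → ℕ) (hz : Computable z)
    (h1 : ∀ m, L (u m) (z m)) (h2 : ∀ m, L (z m) (b m)) (h3 : ∀ m, z m ≠ b m)
    (h4 : ∀ m, L (b m) (v m)) (hul : ∀ m, u (2 * m + 1) = u m) (hvl : ∀ m, v (2 * m + 1) = z m)
    (hur : ∀ m, u (2 * m + 2) = b m) (hvr : ∀ m, v (2 * m + 2) = v m)
    (_h5 : ∀ m, ¬ L (z m) (u m)) (h6 : ∀ m, ¬ L (v m) (z m)) :
    ∃ φ : ℚ → ℕ, Computable (fun n => φ (rat n)) ∧
      ∀ p q : ℚ, p < q → L (φ p) (φ q) ∧ φ p ≠ φ q := by
  refine ⟨fun x => z (ps x (Nat.find (rat_surj x))), ?_, ?_⟩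
  · have h : Computable (fun n : ℕ => z (psb n (fi n n))) :=
      hz.comp (psb_primrec.comp Primrec.id (fi_primrec.comp Primrec.id Primrec.id)).to_comp
    refine h.of_eq ?_
    intro n
    rw [psb_eq, fi_self]
  · -- shrinking of the gaps
    have su : ∀ (x : ℚ) (i n : ℕ), i ≤ n → L (u (ps x i)) (u (ps x n)) := by
      intro x i n hin
      induction n, hin using Nat.le_induction with
      | base => exact hr _
      | succ n _ ih =>
        refine ht _ _ _ ih ?_
        simp only [ps]
        split_ifs with hc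
        · rw [show 2 * ps x n + 1 + 1 = 2 * ps x n + 2 from rfl, hur]
          exact ht _ _ _ (h1 _) (h2 _)
        · rw [add_zero, hul]; exact hr _
    have sv : ∀ (x : ℚ) (i n : ℕ), i ≤ n → L (v (ps x n)) (v (ps x i)) := by
      intro x i n hin
      induction n, hin using Nat.le_induction with
      | base => exact hr _
      | succ n _ ih =>
        refine ht _ _ _ ?_ ih
        simp only [ps]
        split_ifs with hc
        · rw [show 2 * ps x n + 1 + 1 = 2 * ps x n + 2 from rfl, hvr]; exact hr _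
        · rw [add_zero, hvl]; exact ht _ _ _ (h2 _) (h4 _)
    intro x y hxy
    show L (z (ps x (Nat.find (rat_surj x)))) (z (ps y (Nat.find (rat_surj y)))) ∧
      z (ps x (Nat.find (rat_surj x))) ≠ z (ps y (Nat.find (rat_surj y)))
    set n := Nat.find (rat_surj x) with hn
    set m := Nat.find (rat_surj y) with hm
    have hxn : rat n = x := Nat.find_spec (rat_surj x)
    have hym : rat m = y := Nat.find_spec (rat_surj y)
    have hex : ∃ i, x ≤ rat i ∧ rat i ≤ y := ⟨n, hxn.ge, hxn.le.trans hxy.le⟩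
    set i := Nat.find hex with hi
    obtain ⟨hi1, hi2⟩ : x ≤ rat i ∧ rat i ≤ y := Nat.find_spec hex
    have hin : i ≤ n := Nat.find_min' hex ⟨hxn.ge, hxn.le.trans hxy.le⟩
    have him : i ≤ m := Nat.find_min' hex ⟨hxy.le.trans hym.ge, hym.le⟩
    have hpos : ∀ j, j ≤ i → ps x j = ps y j := by
      intro j
      induction j with
      | zero => intro _; rfl
      | succ j ih =>
        intro hj
        have hj' := ih (by omega)
        have hmin := Nat.find_min hex (show j < Nat.find hex by rw [← hi]; omega)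
        have hiff : rat j < x ↔ rat j < y := by
          constructor
          · intro h; exact h.trans hxy
          · intro h
            by_contra hc
            push Not at hc
            exact hmin ⟨hc, h.le⟩
        simp only [ps]
        rw [hj', if_congr hiff rfl rfl]
    have hp := hpos i le_rfl
    set p := ps y i with hpdef
    -- consequences
    have hxl : ¬ rat i < x → i < n → L (z (ps x n)) (z p) ∧ z (ps x n) ≠ z p := by
      intro hc hlt
      have hs := sv x (i + 1) n hlt
      simp only [ps] at hs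
      rw [if_neg hc, add_zero, hp, hvl] at hs
      refine ⟨ht _ _ _ (ht _ _ _ (h2 _) (h4 _)) hs, ?_⟩
      intro he
      rw [← he] at hs
      exact h6 _ hs
    have hyl : rat i < y → i < m → L (b p) (z (ps y m)) := by
      intro hc hlt
      have hs := su y (i + 1) m hlt
      simp only [ps] at hs
      rw [if_pos hc, ← hpdef, show 2 * p + 1 + 1 = 2 * p + 2 from rfl, hur] at hs
      exact ht _ _ _ hs (h1 _)
    rcases hi1.lt_or_eq with hlt1 | heq1
    · have hin' : i < n := by
        rcases hin.lt_or_eq with h | h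
        · exact h
        · exfalso; rw [h, hxn] at hlt1; exact lt_irrefl _ hlt1
      obtain ⟨hA, hA'⟩ := hxl (not_lt.mpr hlt1.le) hin'
      rcases hi2.lt_or_eq with hlt2 | heq2
      · have him' : i < m := by
          rcases him.lt_or_eq with h | h
          · exact h
          · exfalso; rw [h, hym] at hlt2; exact lt_irrefl _ hlt2
        have hB := hyl hlt2 him'
        have hAB : L (z p) (z (ps y m)) := ht _ _ _ (h2 p) hB
        refine ⟨ht _ _ _ hA hAB, ?_⟩
        intro he
        rw [← he] at hAB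
        exact hA' (ha _ _ hA hAB)
      · have him' : m ≤ i := Nat.find_min' (rat_surj y) heq2
        have : i = m := le_antisymm him him'
        rw [← this, ← hpdef]
        exact ⟨hA, hA'⟩
    · have hni : n ≤ i := Nat.find_min' (rat_surj x) heq1.symm
      have hni' : i = n := le_antisymm hin hni
      have hlt2 : rat i < y := by rw [← heq1]; exact hxy
      have him' : i < m := by
        rcases him.lt_or_eq with h | h
        · exact h
        · exfalso; rw [h, hym] at hlt2; exact lt_irrefl _ hlt2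
      have hB := hyl hlt2 him'
      rw [← hni', hp]
      refine ⟨ht _ _ _ (h2 p) hB, ?_⟩
      intro he
      rw [← he] at hB
      exact h3 p (ha _ _ (h2 p) hB)

end Pool.Agent.W376.SCqe
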