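import Pool.Agent.W979.TE.Defs5
import Pool.Agent.W179.TE3_Tree

/-!
# The explicit tree with colouring (S_TREE4), from the module of helper179
-/

set_option autoImplicit false

open Classical

namespace Pool.Agent.W376.TE4Tree4

open Pool.Agent.W979.TE Pool.Agent.W979.TE3 Pool.Agent.W979.TE4 Pool.Agent.W979.TE5
open Pool.Agent.W179.TE3Tree

variable {s q : ℕ}

/-- colour -/
def colB : TV s q → Bool
  | .inl _ => true
  | .inr (.inl _) => false
  | .inr (.inr _) => true

theorem adj_kv (κ : Kn s q) (b : Bool) : (T s q).Adj (kv κ) (nb κ b) :=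
  (adj_iff _ _).mpr ⟨κ, b, Or.inl ⟨rfl, rfl⟩⟩

theorem reach_none (v : TV s q) : (T s q).Reachable v (.inl none) := by
  have h1 : ∀ i : Fin s, (T s q).Reachable (kv (.inl i)) (.inl none) :=
    fun i => (adj_kv (.inl i) false).reachable
  have h2 : ∀ x : Option (Fin s), (T s q).Reachable (.inl x : TV s q) (.inl none) := by
    intro x
    rcases x with _ | i
    · exact SimpleGraph.Reachable.refl _
    · exact ((adj_kv (.inl i) true).symm.reachable).trans (h1 i)
  have h3 : ∀ p : Option (Fin s) × Fin q, (T s q).Reachable (kv (.inr p)) (.inl none) :=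
    fun p => ((adj_kv (.inr p) false).reachable).trans (h2 p.1)
  rcases v with x | (i | p) | p
  · exact h2 x
  · exact h1 i
  · exact h3 p
  · exact ((adj_kv (.inr p) true).symm.reachable).trans (h3 p)

theorem conn : (T s q).Connected := by
  have : Nonempty (TV s q) := ⟨.inl none⟩
  exact ⟨fun u v => (reach_none u).trans (reach_none v).symm⟩

theorem edge_ncard : (T s q).edgeSet.ncard = 2 * hh s q := by
  have h1 : (T s q).edgeSet.ncard = eS (T s q) Set.univ := by
    unfold eS
    congr 1
    ext e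
    constructor
    · intro he
      refine ⟨he, ?_⟩
      induction e using Sym2.ind with
      | _ a b => exact ⟨a, Set.mem_univ _, Sym2.mem_mk_left _ _⟩
    · intro he
      exact he.1
  rw [h1, eS_sum]
  rw [Finset.sum_congr rfl (fun x _ => by
    rw [ind_true (Or.inl (Set.mem_univ _)), ind_true (Or.inl (Set.mem_univ _))])]
  simp [hh]
  ring

theorem isTree : (T s q).IsTree := by
  rw [SimpleGraph.isTree_iff_connected_and_card]
  refine ⟨conn, ?_⟩
  have h1 : Nat.card (T s q).edgeSet = 2 * hh s q := edge_ncard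
  rw [h1]
  simp [hh]
  ring

theorem tree4 : S_TREE4 := by
  intro s q hs hq
  refine ⟨TV s q, inferInstance, T s q, R s q, colB, isTree, ⟨conn, ?_, ?_, ?_⟩, ncard_R, eS_R,
    balanced hq, hasBU⟩
  · exact ⟨.inr (.inr (none, ⟨0, hq⟩)), ⟨_, rfl⟩⟩
  · intro u v huv
    have key : ∀ (κ : Kn s q) (b : Bool), colB (kv κ) ≠ colB (nb κ b) := by
      intro κ b
      rcases κ with i | p <;> cases b <;> simp [kv, nb, colB]
    rw [adj_iff] at huv
    obtain ⟨κ, c, ⟨rfl, rfl⟩ | ⟨rfl, rfl⟩⟩ := huv
    · exact key _ _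
    · exact (key _ _).symm
  · intro b
    cases b
    · exact ⟨kv (.inl ⟨0, hs⟩), kv_mem _, rfl⟩
    · exact ⟨.inl none, inl_mem _, rfl⟩

end Pool.Agent.W376.TE4Tree4
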