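import Pool.Agent.W979.TE.Defs

/-!
TE-LOC (helper376 for helper979): for a fixed position of all the vertices few tuples of
polynomials have no certificate.
-/

set_option autoImplicit false

open Classical

namespace Pool.Agent.W376.TE

open Pool.Agent.W979.TE MvPolynomial

section trans

variable {F ι : Type} [Field F]

/-- translation -/
noncomputable def tr (x : ι → F) : MvPolynomial ι F →ₐ[F] MvPolynomial ι F :=
  aeval fun i => X i + C (x i)

/-- inverse translation -/
noncomputable def tr' (x : ι → F) : MvPolynomial ι F →ₐ[F] MvPolynomial ι F :=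
  aeval fun i => X i - C (x i)

lemma tr'_tr (x : ι → F) (q : MvPolynomial ι F) : tr' x (tr x q) = q := by
  have h : (tr' x).comp (tr x) = AlgHom.id F _ := by
    apply algHom_ext
    intro i
    simp [tr, tr', algHom_C]
  exact DFunLike.congr_fun h q

lemma map_tr' (x : ι → F) : (idealOfVars ι F).map (tr' x) = pt x := by
  rw [idealOfVars, Ideal.map_span, pt, ← Set.range_comp]
  congr 1
  ext q
  simp [tr']

/-- back to the point `x` -/
lemma cert_of {κ : Type} (K : ℕ) (G : κ → MvPolynomial ι F) (x : ι → F)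
    (h : idealOfVars ι F ^ K ≤
      Ideal.span (Set.range fun j => tr x (G j)) ⊔ idealOfVars ι F ^ (K + 1)) :
    Cert K G x := by
  have h1 := Ideal.map_mono (f := tr' x) h
  rw [Ideal.map_sup, Ideal.map_pow, Ideal.map_pow, map_tr', Ideal.map_span, ← Set.range_comp] at h1
  have h2 : ((tr' x : MvPolynomial ι F → MvPolynomial ι F) ∘ fun j => tr x (G j)) = G := by
    funext j
    exact tr'_tr x (G j)
  rw [h2] at h1
  exact h1

end trans

section fin

lemma fin_exp (σ : Type) [Finite σ] (d : ℕ) : {s : σ →₀ ℕ | ∀ i, s i ≤ d}.Finite := by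
  have : Fintype σ := Fintype.ofFinite σ
  have h : Function.Injective (fun s : σ →₀ ℕ => (s : σ → ℕ)) := DFunLike.coe_injective
  apply Set.Finite.of_finite_image (f := fun s : σ →₀ ℕ => (s : σ → ℕ)) _ h.injOn
  apply Set.Finite.subset (Set.finite_Iic (fun _ : σ => d))
  rintro _ ⟨s, hs, rfl⟩
  exact fun i => hs i

instance fin_restrict (F σ : Type) [Field F] [Finite F] [Finite σ] (d : ℕ) :
    Finite (restrictDegree σ F d) := by
  have h1 : Finite {s : σ →₀ ℕ // ∀ i, s i ≤ d} := (fin_exp σ d).to_subtype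
  apply Finite.of_injective
    (fun (p : restrictDegree σ F d) (s : {s : σ →₀ ℕ // ∀ i, s i ≤ d}) => coeff s.1 p.1)
  intro p q hpq
  apply Subtype.ext
  apply MvPolynomial.ext
  intro m
  by_cases hm : ∀ i, m i ≤ d
  · exact congrFun hpq ⟨m, hm⟩
  · have h0 : ∀ r : restrictDegree σ F d, coeff m r.1 = 0 := by
      intro r
      by_contra h
      have := (mem_restrictDegree σ r.1 d).1 r.2 m (mem_support_iff.2 h)
      exact hm this
    rw [h0, h0]

end fin

section main

variable {F V E : Type} [Field F] [Fintype V] [Fintype E] (U : Finset V) (a b : E → V)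
  {e : ℕ} (z : V → Fin e → F)

/-- the position of the two ends of an edge -/
def zz (ε : E) : Fin e ⊕ Fin e → F := Sum.elim (z (a ε)) (z (b ε))

/-- the base point -/
def xx : {v // v ∈ U} × Fin e → F := fun p => z p.1.1 p.2

/-- substitution followed by translation -/
noncomputable def ph (ε : E) :
    MvPolynomial (Fin e ⊕ Fin e) F →ₐ[F] MvPolynomial ({v // v ∈ U} × Fin e) F :=
  (tr (xx U z)).comp (sub U a b z ε)

lemma tr_pos (v : V) (i : Fin e) : tr (xx U z) (pos U z v i - C (z v i)) =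
    if h : v ∈ U then X (⟨v, h⟩, i) else 0 := by
  unfold pos
  split_ifs with h
  · simp [tr, xx, algHom_C]
  · simp

lemma ph_inl (ε : E) (i : Fin e) : ph U a b z ε (X (Sum.inl i) - C (z (a ε) i)) =
    if h : a ε ∈ U then X (⟨a ε, h⟩, i) else 0 := by
  rw [← tr_pos, ph, AlgHom.comp_apply]
  congr 1
  simp [sub, algHom_C]

lemma ph_inr (ε : E) (i : Fin e) : ph U a b z ε (X (Sum.inr i) - C (z (b ε) i)) =
    if h : b ε ∈ U then X (⟨b ε, h⟩, i) else 0 := by
  rw [← tr_pos, ph, AlgHom.comp_apply]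
  congr 1
  simp [sub, algHom_C]

lemma map_ph (ε : E) : (pt (zz a b z ε)).map (ph U a b z ε) ≤
    idealOfVars ({v // v ∈ U} × Fin e) F := by
  rw [pt, Ideal.map_span, Ideal.span_le]
  rintro _ ⟨_, ⟨c, rfl⟩, rfl⟩
  have hX : ∀ q : {v // v ∈ U} × Fin e, (X q : MvPolynomial _ F) ∈ idealOfVars _ F :=
    fun q => Ideal.subset_span ⟨q, rfl⟩
  rcases c with i | i
  · change ph U a b z ε (X (Sum.inl i) - C (z (a ε) i)) ∈ idealOfVars _ F
    rw [ph_inl]
    split_ifs
    · exact hX _
    · exact Ideal.zero_mem _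
  · change ph U a b z ε (X (Sum.inr i) - C (z (b ε) i)) ∈ idealOfVars _ F
    rw [ph_inr]
    split_ifs
    · exact hX _
    · exact Ideal.zero_mem _

lemma ph_mem {ε : E} {q : MvPolynomial (Fin e ⊕ Fin e) F} {K : ℕ}
    (hq : q ∈ pt (zz a b z ε) ^ K) : ph U a b z ε q ∈ idealOfVars ({v // v ∈ U} × Fin e) F ^ K := by
  have h1 := Ideal.mem_map_of_mem (ph U a b z ε) hq
  rw [Ideal.map_pow] at h1
  exact Ideal.pow_right_mono (map_ph U a b z ε) K h1

/-- the coordinate used to perturb at the variable `p` -/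
noncomputable def cc (ε : E) (p : {v // v ∈ U} × Fin e) : Fin e ⊕ Fin e :=
  if a ε = p.1.1 then Sum.inl p.2 else Sum.inr p.2

lemma ph_cc {ε : E} {p : {v // v ∈ U} × Fin e} (h : a ε = p.1.1 ∨ b ε = p.1.1) :
    ph U a b z ε (X (cc U a ε p) - C (zz a b z ε (cc U a ε p))) = X p := by
  obtain ⟨⟨v, hv⟩, i⟩ := p
  by_cases ha : a ε = v
  · have hc : cc U a ε (⟨v, hv⟩, i) = Sum.inl i := if_pos ha
    rw [hc]
    change ph U a b z ε (X (Sum.inl i) - C (z (a ε) i)) = _
    rw [ph_inl]
    subst ha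
    rw [dif_pos hv]
  · have hc : cc U a ε (⟨v, hv⟩, i) = Sum.inr i := if_neg ha
    have hb : b ε = v := by
      rcases h with h | h
      · exact absurd h ha
      · exact h
    rw [hc]
    change ph U a b z ε (X (Sum.inr i) - C (z (b ε) i)) = _
    rw [ph_inr]
    subst hb
    rw [dif_pos hv]

end main

section deg

variable {F σ : Type} [Field F]

/-- the perturbation polynomial without the bump -/
noncomputable def QQ {K : ℕ} (c : σ) (t : F) (lam : Fin K → F) : MvPolynomial σ F :=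
  ∑ k, C (lam k) * (X c - C t) ^ (k.1 + 1)

lemma deg_lin (c c0 : σ) (t : F) : degreeOf c (X c0 - C t : MvPolynomial σ F) ≤ 1 := by
  rw [sub_eq_add_neg, ← C_neg]
  refine (degreeOf_add_le _ _ _).trans ?_
  rw [degreeOf_C, degreeOf_X]
  split_ifs <;> simp

lemma deg_QQ {K : ℕ} (c c0 : σ) (t : F) (lam : Fin K → F) : degreeOf c (QQ c0 t lam) ≤ K := by
  unfold QQ
  refine (degreeOf_sum_le _ _ _).trans ?_
  apply Finset.sup_le
  intro k _
  refine (degreeOf_C_mul_le _ _ _).trans ((degreeOf_pow_le _ _ _).trans ?_)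
  have h1 := deg_lin c c0 t
  have h2 := k.2
  calc (k.1 + 1) * degreeOf c (X c0 - C t : MvPolynomial σ F) ≤ (k.1 + 1) * 1 :=
        Nat.mul_le_mul_left _ h1
    _ ≤ K := by omega

end deg

section key

variable {F V E : Type} [Field F] [Fintype V] [Fintype E] (U : Finset V) (a b : E → V)
  {e : ℕ} (z : V → Fin e → F)

lemma pert_key {K : ℕ} {μ : {v // v ∈ U} × Fin e → E × Fin U.card} (hM1 : Function.Injective μ)
    (hM2 : ∀ p, a (μ p).1 = p.1.1 ∨ b (μ p).1 = p.1.1)
    (B : E → MvPolynomial (Fin e ⊕ Fin e) F)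
    (hB2 : ∀ ε, B ε - 1 ∈ pt (zz a b z ε) ^ (K + 1))
    (hB3 : ∀ ε ε', ε' ≠ ε → B ε ∈ pt (zz a b z ε') ^ (K + 1))
    (p : {v // v ∈ U} × Fin e) (lam : Fin K → F)
    (δ : Fin U.card → MvPolynomial (Fin e ⊕ Fin e) F)
    (hδ : δ (μ p).2 = B (μ p).1 * QQ (cc U a (μ p).1 p) (zz a b z (μ p).1 (cc U a (μ p).1 p)) lam)
    (hδ0 : ∀ l, l ≠ (μ p).2 → δ l = 0) (j : {v // v ∈ U} × Fin e) :
    ph U a b z (μ j).1 (δ (μ j).2) - (if j = p then lamP p lam else 0) ∈
      idealOfVars ({v // v ∈ U} × Fin e) F ^ (K + 1) := by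
  by_cases hj : j = p
  · subst hj
    rw [if_pos rfl, hδ]
    have h2 : ph U a b z (μ j).1 (QQ (cc U a (μ j).1 j)
        (zz a b z (μ j).1 (cc U a (μ j).1 j)) lam) = lamP j lam := by
      unfold QQ lamP
      rw [map_sum]
      apply Finset.sum_congr rfl
      intro k _
      rw [map_mul, map_pow, ph_cc U a b z (hM2 j), algHom_C]
      rfl
    have h3 : ph U a b z (μ j).1 (B (μ j).1 * QQ (cc U a (μ j).1 j)
        (zz a b z (μ j).1 (cc U a (μ j).1 j)) lam) - lamP j lam =
        ph U a b z (μ j).1 (B (μ j).1 - 1) * lamP j lam := by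
      rw [map_mul, h2, map_sub, map_one]
      ring
    rw [h3]
    exact Ideal.mul_mem_right _ _ (ph_mem U a b z (hB2 _))
  · rw [if_neg hj, sub_zero]
    by_cases hl : (μ j).2 = (μ p).2
    · rw [hl, hδ]
      have hε : (μ j).1 ≠ (μ p).1 := fun h => hj (hM1 (Prod.ext h hl))
      apply ph_mem
      exact Ideal.mul_mem_right _ _ (hB3 _ _ hε)
    · rw [hδ0 _ hl, map_zero]
      exact Ideal.zero_mem _

end key

theorem loc_aux (hS : S_SEQ) (hB : S_BUMP) (F V E : Type) [Field F] [Fintype F] [Fintype V]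
    [Fintype E] (U : Finset V) (a b : E → V) (L K d e : ℕ) (he : Fintype.card E ≤ e)
    (μ : {v // v ∈ U} × Fin e → E × Fin U.card) (z : V → Fin e → F)
    (hM1 : Function.Injective μ) (hM2 : ∀ p, a (μ p).1 = p.1.1 ∨ b (μ p).1 = p.1.1)
    (hinj : Function.Injective (fun ε : E => (z (a ε), z (b ε))))
    (hK : K = NN (U.card * e) L (U.card * e)) (hd : e * (K + 1) ^ 2 + K ≤ d) :
    Nat.card {f : Om F U.card e d //
        ¬ Cert K (fun p : {v // v ∈ U} × Fin e =>
            sub U a b z (μ p).1 (f (μ p).2 : MvPolynomial (Fin e ⊕ Fin e) F))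
              (fun p => z p.1.1 p.2)} * Fintype.card F ^ L ≤
      U.card * e * K ^ (U.card * e) * Nat.card (Om F U.card e d) := by
  have hfin : Finite (Om F U.card e d) := by
    have : Finite (restrictDegree (Fin e ⊕ Fin e) F d) := fin_restrict F _ d
    exact Pi.finite
  let hft : Fintype (Om F U.card e d) := Fintype.ofFinite _
  have hzz : Function.Injective (zz a b z : E → (Fin e ⊕ Fin e → F)) := by
    intro ε ε' h
    apply hinj
    simp only [Prod.mk.injEq]
    constructor
    · funext i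
      exact congrFun h (Sum.inl i)
    · funext i
      exact congrFun h (Sum.inr i)
  have hbump : ∀ ε : E, ∃ B : MvPolynomial (Fin e ⊕ Fin e) F,
      (∀ c, degreeOf c B ≤ e * (K + 1) ^ 2) ∧ B - 1 ∈ pt (zz a b z ε) ^ (K + 1) ∧
      ∀ ε', ε' ≠ ε → B ∈ pt (zz a b z ε') ^ (K + 1) := by
    intro ε
    obtain ⟨B, h1, h2, h3⟩ := hB F (Fin e ⊕ Fin e) K e (Finset.univ.image (zz a b z)) (zz a b z ε)
      (Finset.mem_image_of_mem _ (Finset.mem_univ _))
      (Finset.card_image_le.trans (by rw [Finset.card_univ]; exact he))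
    exact ⟨B, h1, h2, fun ε' hε => h3 _ (Finset.mem_image_of_mem _ (Finset.mem_univ _))
      fun h => hε (hzz h)⟩
  choose B hB1 hB2 hB3 using hbump
  -- the perturbations
  have hQ : ∀ (p : {v // v ∈ U} × Fin e) (lam : Fin K → F), B (μ p).1 * QQ (cc U a (μ p).1 p)
      (zz a b z (μ p).1 (cc U a (μ p).1 p)) lam ∈ restrictDegree (Fin e ⊕ Fin e) F d := by
    intro p lam
    rw [mem_restrictDegree]
    intro s hs i
    have h1 := (degreeOf_mul_le i (B (μ p).1) (QQ (cc U a (μ p).1 p)
      (zz a b z (μ p).1 (cc U a (μ p).1 p)) lam)).trans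
        ((Nat.add_le_add (hB1 _ i) (deg_QQ i _ _ lam)).trans hd)
    exact degreeOf_le_iff.1 h1 s hs
  let Λ : {v // v ∈ U} × Fin e → (Fin K → F) → restrictDegree (Fin e ⊕ Fin e) F d :=
    fun p lam => ⟨_, hQ p lam⟩
  let pert : {v // v ∈ U} × Fin e → (Fin K → F) → (Om F U.card e d ≃ Om F U.card e d) :=
    fun p lam => Equiv.addRight (Pi.single (μ p).2 (Λ p lam))
  let G : Om F U.card e d → {v // v ∈ U} × Fin e → MvPolynomial ({v // v ∈ U} × Fin e) F :=
    fun f p => ph U a b z (μ p).1 (f (μ p).2 : MvPolynomial (Fin e ⊕ Fin e) F)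
  have hcard : Fintype.card ({v // v ∈ U} × Fin e) = U.card * e := by
    rw [Fintype.card_prod, Fintype.card_fin]
    congr 1
    exact Fintype.card_coe U
  have hpert : ∀ p lam ω j, G (pert p lam ω) j - G ω j - (if j = p then lamP p lam else 0) ∈
      idealOfVars ({v // v ∈ U} × Fin e) F ^ (K + 1) := by
    intro p lam ω j
    have h1 : G (pert p lam ω) j - G ω j = ph U a b z (μ j).1
        (((Pi.single (μ p).2 (Λ p lam) : Om F U.card e d) (μ j).2 :
          restrictDegree (Fin e ⊕ Fin e) F d) : MvPolynomial (Fin e ⊕ Fin e) F) := by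
      have h2 : (pert p lam ω) (μ j).2 =
          ω (μ j).2 + (Pi.single (μ p).2 (Λ p lam) : Om F U.card e d) (μ j).2 := rfl
      simp only [G]
      rw [h2, Submodule.coe_add, map_add, add_sub_cancel_left]
    rw [h1]
    refine pert_key U a b z hM1 hM2 B hB2 hB3 p lam (fun l =>
      (((Pi.single (μ p).2 (Λ p lam) : Om F U.card e d) l :
          restrictDegree (Fin e ⊕ Fin e) F d) : MvPolynomial (Fin e ⊕ Fin e) F)) ?_ ?_ j
    · simp only [Pi.single_eq_same]
      rfl
    · intro l hl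
      simp only [Pi.single_eq_of_ne hl]
      rfl
  have key := hS F ({v // v ∈ U} × Fin e) (Om F U.card e d) L K G pert
    (by rw [hcard]; exact hK) (fun p lam ω j => by
      have h := hpert p lam ω j
      convert h)
  rw [hcard] at key
  rw [Nat.card_eq_fintype_card, Nat.card_eq_fintype_card, Fintype.card_subtype]
  refine le_trans (Nat.mul_le_mul_right _ (Finset.card_le_card ?_)) key
  intro f hf
  rw [Finset.mem_filter] at hf ⊢
  refine ⟨Finset.mem_univ _, fun h => hf.2 ?_⟩
  exact cert_of K _ _ h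

theorem loc : S_SEQ → S_BUMP → S_LOC := by
  intro hS hB F V E _ _ _ _ U a b L K d μ z hM hinj hK hd
  exact loc_aux hS hB F V E U a b L K d (Fintype.card E) le_rfl μ z hM.1 hM.2 hinj hK hd

end Pool.Agent.W376.TE
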