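import Pool.Agent.W792.WA.Stm

/-!
The part `S_FIX` of the project WA: existence, uniqueness and invariant sets for the effective
medium equation.
-/

set_option autoImplicit false

namespace Pool.Agent.W376.WAFix

open MeasureTheory Filter Pool.Agent.W792.LL Pool.Agent.W792.WA
open scoped Topology

section abstract_part

variable {X : Type} [TopologicalSpace X] [CompactSpace X]

/-- invariant class: norm at most one and gap from one pointwise -/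
def Gp (kap : ℝ) (s : C(X, ℂ)) : Prop := ∀ k, ‖s k‖ ^ 2 ≤ 1 - kap

theorem Gp.norm_le {kap : ℝ} (hk : 0 ≤ kap) {s : C(X, ℂ)} (h : Gp kap s) : ‖s‖ ≤ 1 := by
  rw [ContinuousMap.norm_le _ zero_le_one]
  intro k
  have := h k
  have h0 := norm_nonneg (s k)
  nlinarith

theorem iter_gp (F : C(X, ℂ) → C(X, ℂ)) (kap : ℝ) (hk : 0 ≤ kap)
    (h1 : ∀ s : C(X, ℂ), ‖s‖ ≤ 1 → Gp kap (F s)) (s : C(X, ℂ)) (hs : Gp kap s) (n : ℕ) :
    Gp kap (F^[n] s) := by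
  induction n with
  | zero => simpa using hs
  | succ n ih =>
    rw [Function.iterate_succ_apply']
    exact h1 _ (ih.norm_le hk)

theorem geo (F : C(X, ℂ) → C(X, ℂ)) (kap q : ℝ) (hk : 0 < kap) (_hq : 0 ≤ q)
    (h1 : ∀ s : C(X, ℂ), ‖s‖ ≤ 1 → Gp kap (F s))
    (h2 : ∀ (s t : C(X, ℂ)) (T : ℝ), Gp kap s → Gp kap t → 0 ≤ T →
      (∀ k, ‖s k - t k‖ ^ 2 ≤ T * ((1 - ‖s k‖ ^ 2) * (1 - ‖t k‖ ^ 2))) →
      ∀ k, ‖F s k - F t k‖ ^ 2 ≤ q ^ 4 * T * ((1 - ‖F s k‖ ^ 2) * (1 - ‖F t k‖ ^ 2)))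
    (s t : C(X, ℂ)) (hs : Gp kap s) (ht : Gp kap t) (n : ℕ) :
    ‖F^[n] s - F^[n] t‖ ≤ 2 / kap * (q ^ 2) ^ n := by
  have key : ∀ k, ‖F^[n] s k - F^[n] t k‖ ^ 2 ≤
      (q ^ 4) ^ n * (2 / kap) ^ 2 * ((1 - ‖F^[n] s k‖ ^ 2) * (1 - ‖F^[n] t k‖ ^ 2)) := by
    induction n with
    | zero =>
      intro k
      have ha := hs k
      have hb := ht k
      have hc : ‖s k‖ ≤ 1 := by nlinarith [norm_nonneg (s k)]
      have hd : ‖t k‖ ≤ 1 := by nlinarith [norm_nonneg (t k)]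
      have he : ‖s k - t k‖ ≤ 2 := (norm_sub_le _ _).trans (by linarith)
      have hf : ‖s k - t k‖ ^ 2 ≤ 4 := by nlinarith [norm_nonneg (s k - t k)]
      have hg : kap ^ 2 ≤ (1 - ‖s k‖ ^ 2) * (1 - ‖t k‖ ^ 2) := by nlinarith
      simp only [Function.iterate_zero, id_eq, pow_zero, one_mul]
      calc ‖s k - t k‖ ^ 2 ≤ 4 := hf
        _ = (2 / kap) ^ 2 * kap ^ 2 := by field_simp; norm_num
        _ ≤ _ := mul_le_mul_of_nonneg_left hg (by positivity)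
    | succ n ih =>
      intro k
      rw [Function.iterate_succ_apply', Function.iterate_succ_apply']
      have := h2 (F^[n] s) (F^[n] t) ((q ^ 4) ^ n * (2 / kap) ^ 2) (iter_gp F kap hk.le h1 s hs n)
        (iter_gp F kap hk.le h1 t ht n) (by positivity) ih k
      calc _ ≤ _ := this
        _ = _ := by rw [pow_succ]; ring
  rw [ContinuousMap.norm_le _ (by positivity)]
  intro k
  have h3 := key k
  have hs' := iter_gp F kap hk.le h1 s hs n k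
  have ht' := iter_gp F kap hk.le h1 t ht n k
  have h4 : (1 - ‖F^[n] s k‖ ^ 2) * (1 - ‖F^[n] t k‖ ^ 2) ≤ 1 := by
    have ha : 0 ≤ 1 - ‖F^[n] s k‖ ^ 2 := by linarith
    have hb : 0 ≤ 1 - ‖F^[n] t k‖ ^ 2 := by linarith
    have hc : 1 - ‖F^[n] s k‖ ^ 2 ≤ 1 := by nlinarith [sq_nonneg ‖F^[n] s k‖]
    have hd : 1 - ‖F^[n] t k‖ ^ 2 ≤ 1 := by nlinarith [sq_nonneg ‖F^[n] t k‖]
    nlinarith
  have h5 : ‖F^[n] s k - F^[n] t k‖ ^ 2 ≤ (2 / kap * (q ^ 2) ^ n) ^ 2 := by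
    calc _ ≤ _ := h3
      _ ≤ (q ^ 4) ^ n * (2 / kap) ^ 2 * 1 := mul_le_mul_of_nonneg_left h4 (by positivity)
      _ = _ := by ring
  rw [ContinuousMap.sub_apply]
  exact le_of_sq_le_sq' h5 (by positivity)
where
  le_of_sq_le_sq' {a b : ℝ} (h : a ^ 2 ≤ b ^ 2) (hb : 0 ≤ b) : a ≤ b := by
    exact le_of_abs_le (abs_le_of_sq_le_sq h hb)

theorem abs_fix (F : C(X, ℂ) → C(X, ℂ)) (kap q L : ℝ) (hk : 0 < kap) (hq : 0 ≤ q) (hq1 : q < 1)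
    (h1 : ∀ s : C(X, ℂ), ‖s‖ ≤ 1 → Gp kap (F s))
    (h2 : ∀ (s t : C(X, ℂ)) (T : ℝ), Gp kap s → Gp kap t → 0 ≤ T →
      (∀ k, ‖s k - t k‖ ^ 2 ≤ T * ((1 - ‖s k‖ ^ 2) * (1 - ‖t k‖ ^ 2))) →
      ∀ k, ‖F s k - F t k‖ ^ 2 ≤ q ^ 4 * T * ((1 - ‖F s k‖ ^ 2) * (1 - ‖F t k‖ ^ 2)))
    (h3 : ∀ s t : C(X, ℂ), ‖s‖ ≤ 1 → ‖t‖ ≤ 1 → ‖F s - F t‖ ≤ L * ‖s - t‖) :
    (∀ s t : C(X, ℂ), ‖s‖ ≤ 1 → F s = s → ‖t‖ ≤ 1 → F t = t → s = t) ∧
    ∀ Z : Set C(X, ℂ), IsClosed Z → Z.Nonempty → (∀ s ∈ Z, ‖s‖ ≤ 1) → (∀ s ∈ Z, F s ∈ Z) →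
      ∃ s ∈ Z, ‖s‖ ≤ 1 ∧ F s = s := by
  have hq2 : q ^ 2 < 1 := by nlinarith
  constructor
  · intro s t hs hFs ht hFt
    have hgs : Gp kap s := by rw [← hFs]; exact h1 s hs
    have hgt : Gp kap t := by rw [← hFt]; exact h1 t ht
    have hb : ∀ n : ℕ, ‖s - t‖ ≤ 2 / kap * (q ^ 2) ^ n := by
      intro n
      have := geo F kap q hk hq h1 h2 s t hgs hgt n
      rwa [Function.iterate_fixed hFs, Function.iterate_fixed hFt] at this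
    have hlim : Tendsto (fun n : ℕ => 2 / kap * (q ^ 2) ^ n) atTop (𝓝 (2 / kap * 0)) :=
      (tendsto_pow_atTop_nhds_zero_of_lt_one (by positivity) hq2).const_mul _
    rw [mul_zero] at hlim
    have : ‖s - t‖ ≤ 0 := ge_of_tendsto' hlim hb
    exact sub_eq_zero.mp (norm_le_zero_iff.mp this)
  · intro Z hZc hZn hZ1 hZF
    obtain ⟨s0, hs0⟩ := hZn
    have hmem : ∀ n : ℕ, F^[n] s0 ∈ Z := by
      intro n
      induction n with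
      | zero => simpa using hs0
      | succ n ih => rw [Function.iterate_succ_apply']; exact hZF _ ih
    have hg1 : Gp kap (F s0) := h1 s0 (hZ1 s0 hs0)
    have hg2 : Gp kap (F (F s0)) := h1 _ (hZ1 _ (hZF _ hs0))
    set u : ℕ → C(X, ℂ) := fun n => F^[n] (F s0) with hu
    have hcau : CauchySeq u := by
      apply cauchySeq_of_le_geometric (q ^ 2) (2 / kap) hq2
      intro n
      rw [dist_eq_norm]
      have := geo F kap q hk hq h1 h2 (F s0) (F (F s0)) hg1 hg2 n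
      rw [hu]
      simp only [Function.iterate_succ_apply]
      exact this
    obtain ⟨s, hs⟩ := cauchySeq_tendsto_of_complete hcau
    have huZ : ∀ n, u n ∈ Z := by
      intro n
      have := hmem (n + 1)
      rw [Function.iterate_succ_apply] at this
      exact this
    have hsZ : s ∈ Z := hZc.mem_of_tendsto hs (Eventually.of_forall huZ)
    refine ⟨s, hsZ, hZ1 s hsZ, ?_⟩
    have hF : Tendsto (fun n => F (u n)) atTop (𝓝 (F s)) := by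
      rw [tendsto_iff_norm_sub_tendsto_zero]
      have h5 : Tendsto (fun n => L * ‖u n - s‖) atTop (𝓝 0) := by
        have := (tendsto_iff_norm_sub_tendsto_zero.mp hs).const_mul L
        rwa [mul_zero] at this
      exact squeeze_zero (fun n => norm_nonneg _)
        (fun n => h3 _ _ (hZ1 _ (huZ n)) (hZ1 s hsZ)) h5
    have hF2 : (fun n => F (u n)) = fun n => u (n + 1) := by
      funext n
      rw [hu]
      simp only [Function.iterate_succ_apply']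
    rw [hF2] at hF
    exact tendsto_nhds_unique hF ((tendsto_add_atTop_iff_nat 1).mpr hs)

end abstract_part

theorem main : S_SC2 → S_PSI → S_UUC → S_FIX := by
  intro hSC hPSI hUUC ν _ d ρ _ C q w hvr hρ hw hq hq1 hwq
  set F : C(UnitAddTorus (Fin d), ℂ) → C(UnitAddTorus (Fin d), ℂ) := fun s => psi ν (UU ρ w s)
    with hF
  have hq2 : q ^ 2 < 1 := by nlinarith
  set kap : ℝ := (1 - q ^ 2) * vr ν / 4 with hkap
  have hk : 0 < kap := by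
    rw [hkap]
    have : 0 < 1 - q ^ 2 := by linarith
    positivity
  have hU : ∀ s : C(UnitAddTorus (Fin d), ℂ), ‖s‖ ≤ 1 →
      (∀ k, UU ρ w s k = Us ρ (w k) (s k)) ∧ ‖UU ρ w s‖ ≤ q := by
    intro s hs
    exact hUUC d ρ C q w s hρ hw hq hq1.le hwq hs (by nlinarith [norm_nonneg s])
  have hae : ∀ k, ∀ᵐ a ∂ρ, ‖w k a‖ ≤ q := by
    intro k
    have : ∀ᵐ a ∂ρ, a ∈ Set.Icc (-C) C := by
      rw [ae_iff]
      exact hρ
    filter_upwards [this] with a ha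
    exact hwq k a ha
  have hmeas : ∀ k, Measurable (w k) := by
    intro k
    have : Continuous (w k) := hw.comp (Continuous.prodMk continuous_const continuous_id)
    exact this.measurable
  have h1 : ∀ s : C(UnitAddTorus (Fin d), ℂ), ‖s‖ ≤ 1 → Gp kap (F s) := by
    intro s hs k
    have := (hPSI ν d q (UU ρ w s) (UU ρ w s) hq hq1 (hU s hs).2 (hU s hs).2).1 k
    exact this.2.2.2.2.2
  have hpt : ∀ (s : C(UnitAddTorus (Fin d), ℂ)), ‖s‖ ≤ 1 → ∀ k, ‖s k‖ ≤ 1 := by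
    intro s hs k
    exact (s.norm_coe_le_norm k).trans hs
  have hsc : ∀ (s t : C(UnitAddTorus (Fin d), ℂ)), ‖s‖ ≤ 1 → ‖t‖ ≤ 1 → ∀ k,
      ‖UU ρ w s k - UU ρ w t k‖ ^ 2 * ((1 - ‖s k‖ ^ 2) * (1 - ‖t k‖ ^ 2))
        ≤ q ^ 4 * ‖s k - t k‖ ^ 2 * ((1 - ‖UU ρ w s k‖ ^ 2) * (1 - ‖UU ρ w t k‖ ^ 2)) ∧
      ‖UU ρ w s k - UU ρ w t k‖ ^ 2 * (1 - q ^ 2) ^ 2
        ≤ q ^ 4 * ‖s k - t k‖ ^ 2 * ((1 - ‖UU ρ w s k‖ ^ 2) * (1 - ‖UU ρ w t k‖ ^ 2)) := by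
    intro s t hs ht k
    rw [(hU s hs).1 k, (hU t ht).1 k]
    exact hSC ρ (w k) q (s k) (t k) (hmeas k) hq hq1 (hae k) (hpt s hs k) (hpt t ht k)
  have hUk : ∀ (s : C(UnitAddTorus (Fin d), ℂ)), ‖s‖ ≤ 1 → ∀ k, ‖UU ρ w s k‖ ≤ q := by
    intro s hs k
    exact ((UU ρ w s).norm_coe_le_norm k).trans (hU s hs).2
  have h2 : ∀ (s t : C(UnitAddTorus (Fin d), ℂ)) (T : ℝ), Gp kap s → Gp kap t → 0 ≤ T →
      (∀ k, ‖s k - t k‖ ^ 2 ≤ T * ((1 - ‖s k‖ ^ 2) * (1 - ‖t k‖ ^ 2))) →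
      ∀ k, ‖F s k - F t k‖ ^ 2 ≤ q ^ 4 * T * ((1 - ‖F s k‖ ^ 2) * (1 - ‖F t k‖ ^ 2)) := by
    intro s t T hs ht hT hst
    have hs1 := hs.norm_le hk.le
    have ht1 := ht.norm_le hk.le
    refine (hPSI ν d q (UU ρ w s) (UU ρ w t) hq hq1 (hU s hs1).2 (hU t ht1).2).2.1
      (q ^ 4 * T) (by positivity) ?_
    intro k
    have ha : 0 < 1 - ‖s k‖ ^ 2 := by have := hs k; linarith
    have hb : 0 < 1 - ‖t k‖ ^ 2 := by have := ht k; linarith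
    have hc : 0 ≤ 1 - ‖UU ρ w s k‖ ^ 2 := by
      nlinarith [hUk s hs1 k, norm_nonneg (UU ρ w s k)]
    have hd : 0 ≤ 1 - ‖UU ρ w t k‖ ^ 2 := by
      nlinarith [hUk t ht1 k, norm_nonneg (UU ρ w t k)]
    have h3 := (hsc s t hs1 ht1 k).1
    have h4 := hst k
    have hab : 0 < (1 - ‖s k‖ ^ 2) * (1 - ‖t k‖ ^ 2) := mul_pos ha hb
    have hcd : 0 ≤ (1 - ‖UU ρ w s k‖ ^ 2) * (1 - ‖UU ρ w t k‖ ^ 2) := mul_nonneg hc hd
    have h5 : ‖UU ρ w s k - UU ρ w t k‖ ^ 2 * ((1 - ‖s k‖ ^ 2) * (1 - ‖t k‖ ^ 2)) ≤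
        (q ^ 4 * T * ((1 - ‖UU ρ w s k‖ ^ 2) * (1 - ‖UU ρ w t k‖ ^ 2))) *
          ((1 - ‖s k‖ ^ 2) * (1 - ‖t k‖ ^ 2)) := by
      calc _ ≤ _ := h3
        _ ≤ q ^ 4 * (T * ((1 - ‖s k‖ ^ 2) * (1 - ‖t k‖ ^ 2))) *
            ((1 - ‖UU ρ w s k‖ ^ 2) * (1 - ‖UU ρ w t k‖ ^ 2)) :=
          mul_le_mul_of_nonneg_right (mul_le_mul_of_nonneg_left h4 (by positivity)) hcd
        _ = _ := by ring
    exact le_of_mul_le_mul_right h5 hab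
  have h3 : ∀ s t : C(UnitAddTorus (Fin d), ℂ), ‖s‖ ≤ 1 → ‖t‖ ≤ 1 →
      ‖F s - F t‖ ≤ (1 / (1 - q ^ 2)) ^ 2 * ‖s - t‖ := by
    intro s t hs ht
    have hp : 0 < 1 - q ^ 2 := by linarith
    have h4 := (hPSI ν d q (UU ρ w s) (UU ρ w t) hq hq1 (hU s hs).2 (hU t ht).2).2.2
    have h5 : ‖UU ρ w s - UU ρ w t‖ ≤ 1 / (1 - q ^ 2) * ‖s - t‖ := by
      rw [ContinuousMap.norm_le _ (by positivity)]
      intro k
      rw [ContinuousMap.sub_apply]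
      have h6 := (hsc s t hs ht k).2
      have hst : ‖s k - t k‖ ≤ ‖s - t‖ := by
        have := (s - t).norm_coe_le_norm k
        rwa [ContinuousMap.sub_apply] at this
      have hc : 0 ≤ 1 - ‖UU ρ w s k‖ ^ 2 := by
        nlinarith [hUk s hs k, norm_nonneg (UU ρ w s k)]
      have hd : 0 ≤ 1 - ‖UU ρ w t k‖ ^ 2 := by
        nlinarith [hUk t ht k, norm_nonneg (UU ρ w t k)]
      have hc1 : 1 - ‖UU ρ w s k‖ ^ 2 ≤ 1 := by nlinarith [sq_nonneg ‖UU ρ w s k‖]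
      have hd1 : 1 - ‖UU ρ w t k‖ ^ 2 ≤ 1 := by nlinarith [sq_nonneg ‖UU ρ w t k‖]
      have hcd : (1 - ‖UU ρ w s k‖ ^ 2) * (1 - ‖UU ρ w t k‖ ^ 2) ≤ 1 := by nlinarith
      have hq4 : q ^ 4 ≤ 1 := pow_le_one₀ hq hq1.le
      have h7 : ‖UU ρ w s k - UU ρ w t k‖ ^ 2 * (1 - q ^ 2) ^ 2 ≤ ‖s - t‖ ^ 2 := by
        calc _ ≤ _ := h6
          _ ≤ q ^ 4 * ‖s k - t k‖ ^ 2 * 1 := mul_le_mul_of_nonneg_left hcd (by positivity)
          _ ≤ 1 * ‖s k - t k‖ ^ 2 * 1 := by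
            apply mul_le_mul_of_nonneg_right _ zero_le_one
            exact mul_le_mul_of_nonneg_right hq4 (sq_nonneg _)
          _ = ‖s k - t k‖ ^ 2 := by ring
          _ ≤ ‖s - t‖ ^ 2 := by gcongr
      have h8 : ‖UU ρ w s k - UU ρ w t k‖ * (1 - q ^ 2) ≤ ‖s - t‖ := by
        apply geo.le_of_sq_le_sq' _ (norm_nonneg _)
        rw [mul_pow]; exact h7
      rw [div_mul_eq_mul_div, one_mul, le_div_iff₀ hp]
      exact h8
    calc ‖F s - F t‖ ≤ ‖UU ρ w s - UU ρ w t‖ / (1 - q ^ 2) := h4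
      _ ≤ (1 / (1 - q ^ 2) * ‖s - t‖) / (1 - q ^ 2) := by gcongr
      _ = _ := by field_simp
  obtain ⟨hA, hB⟩ := abs_fix F kap q _ hk hq hq1 h1 h2 h3
  refine ⟨?_, ?_, ?_⟩
  · obtain ⟨s, -, hs1, hs2⟩ := hB {s | ‖s‖ ≤ 1} (isClosed_le continuous_norm continuous_const)
      ⟨0, by simp⟩ (fun s hs => hs) (fun s hs => (h1 s hs).norm_le hk.le)
    refine ⟨s, ⟨hs1, hs2⟩, ?_⟩
    rintro t ⟨ht1, ht2⟩
    exact hA t s ht1 ht2 hs1 hs2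
  · rintro s ⟨hs1, hs2⟩ k
    have := h1 s hs1 k
    have hs3 : F s = s := hs2
    rwa [hs3] at this
  · rintro Z hZc hZn hZ1 hZF s ⟨hs1, hs2⟩
    obtain ⟨t, htZ, ht1, ht2⟩ := hB Z hZc hZn hZ1 hZF
    rw [hA s t hs1 hs2 ht1 ht2]
    exact htZ

end Pool.Agent.W376.WAFix
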